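import Mathlib

/-! First letters of reduced words in a free product of two copies of a group: directions in the
Bass-Serre tree. -/

namespace Pool.Agent.Lib.MP_99fcc5_gt

namespace Tree62

open Monoid Monoid.CoprodI Filter

variable {G : Type} [Group G]

/-- The free product of two copies of `G`. -/
abbrev FP (G : Type) [Group G] : Type := CoprodI fun _ : Bool => G

/-- The two inclusions. -/
def io (i : Bool) : G →* FP G := CoprodI.of (M := fun _ : Bool => G) (i := i)

open Classical in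
/-- The first letter of the reduced word if it has index `i`, and one otherwise. -/
noncomputable def hd (i : Bool) (x : FP G) : G :=
  (Word.equivPair i (x • (Word.empty : Word fun _ : Bool => G))).head

theorem hd_io_mul (i : Bool) (c : G) (x : FP G) : hd i (io i c * x) = c * hd i x := by
  classical
  unfold hd io
  rw [mul_smul, Word.equivPair_smul_same]

theorem hd_one (i : Bool) : hd i (1 : FP G) = 1 := by
  classical
  unfold hd
  rw [one_smul, Word.equivPair_eq_of_fstIdx_ne (by simp [Word.fstIdx, Word.empty])]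

theorem hd_io (i : Bool) (c : G) : hd i (io i c) = c := by
  have := hd_io_mul i c (1 : FP G)
  rwa [mul_one, hd_one, mul_one] at this

theorem head_ne_one {i j : Bool} (w : NeWord (fun _ : Bool => G) i j) : w.head ≠ 1 := by
  induction w with
  | singleton x h => exact h
  | append w₁ _ _ ih _ => exact ih

theorem hd_prod (k : Bool) {i j : Bool} (w : NeWord (fun _ : Bool => G) i j) :
    hd k w.prod = if i = k then w.head else 1 := by
  classical
  have h1 : w.prod • (Word.empty : Word fun _ : Bool => G) = w.toWord :=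
    Word.equiv.apply_symm_apply w.toWord
  have h2 : w.toWord.toList.head w.toList_ne_nil = ⟨i, w.head⟩ := by
    have := w.toList_head?
    exact Option.some_injective _ ((List.head?_eq_some_head w.toList_ne_nil).symm.trans this)
  unfold hd
  rw [h1, Word.equivPair_head]
  by_cases hik : i = k
  · subst hik
    rw [dif_pos ⟨w.toList_ne_nil, by rw [h2]⟩, if_pos rfl]
    simp only [eq_rec_constant]
    rw [h2]
  · rw [dif_neg, if_neg hik]
    rintro ⟨_, h⟩
    rw [h2] at h
    exact hik h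

theorem exists_neWord {y : FP G} (hy : y ≠ 1) :
    ∃ (i j : Bool) (w : NeWord (fun _ : Bool => G) i j), w.prod = y := by
  classical
  obtain ⟨i, j, w, hw⟩ := NeWord.of_word (Word.equiv y) (fun h => hy (by
    rw [← Word.equiv.symm_apply_apply y, h]
    exact Word.prod_empty))
  exact ⟨i, j, w, by rw [NeWord.prod, hw]; exact Word.equiv.symm_apply_apply y⟩

theorem hd_mul_of_red {i j : Bool} {y z : FP G} (hz : hd j z ≠ 1) (hy : hd j y⁻¹ = 1)
    (h : y ≠ 1 ∨ i ≠ j) : hd i (y * z) = hd i y := by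
  have hz1 : z ≠ 1 := by
    rintro rfl
    exact hz (hd_one j)
  obtain ⟨k, l, w₂, rfl⟩ := exists_neWord hz1
  have hk : k = j := by
    by_contra hk
    rw [hd_prod, if_neg hk] at hz
    exact hz rfl
  subst hk
  by_cases hy1 : y = 1
  · subst hy1
    rw [one_mul, hd_one, hd_prod, if_neg (fun e => (h.resolve_left (by simp)) e.symm)]
  · obtain ⟨a, b, w₁, rfl⟩ := exists_neWord hy1
    have hb : b ≠ k := by
      rintro rfl
      rw [← NeWord.inv_prod, hd_prod, if_pos rfl] at hy
      exact head_ne_one _ hy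
    rw [← NeWord.append_prod (hne := hb), hd_prod, hd_prod, NeWord.append_head]

theorem hd_red_io {i j : Bool} {y : FP G} (hy : hd j y⁻¹ = 1) (h : y ≠ 1 ∨ i ≠ j) (d : G) :
    hd i (y * io j d) = hd i y := by
  by_cases hd1 : d = 1
  · rw [hd1, map_one, mul_one]
  · exact hd_mul_of_red (by rwa [hd_io]) hy h

theorem norm_aux {i j : Bool} {y : FP G} (h : ¬ (i = j ∧ y ∈ (io i).range)) :
    hd j (y * io j (hd j y⁻¹))⁻¹ = 1 ∧ (y * io j (hd j y⁻¹) ≠ 1 ∨ i ≠ j) := by
  constructor
  · rw [mul_inv_rev, ← map_inv, hd_io_mul, inv_mul_cancel]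
  · by_contra hc
    push Not at hc
    obtain ⟨h1, rfl⟩ := hc
    exact h ⟨rfl, (hd i y⁻¹)⁻¹, by rw [map_inv]; exact (eq_inv_of_mul_eq_one_left h1).symm⟩

theorem hd_mul_io {i j : Bool} {y : FP G} (h : ¬ (i = j ∧ y ∈ (io i).range)) (c : G) :
    hd i (y * io j c) = hd i y := by
  obtain ⟨h1, h2⟩ := norm_aux h
  have e1 := hd_red_io h1 h2 ((hd j y⁻¹)⁻¹ * c)
  have e2 := hd_red_io h1 h2 ((hd j y⁻¹)⁻¹)
  rw [mul_assoc, ← map_mul, mul_inv_cancel_left] at e1
  rw [mul_assoc, ← map_mul, mul_inv_cancel, map_one, mul_one] at e2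
  rw [e1, e2]

theorem hd_mul_or {i j : Bool} {y : FP G} (h : ¬ (i = j ∧ y ∈ (io i).range)) (z : FP G) :
    hd i (y * z) = hd i y ∨ hd j z = hd j y⁻¹ := by
  obtain ⟨h1, h2⟩ := norm_aux h
  by_cases hz : hd j z = hd j y⁻¹
  · exact Or.inr hz
  left
  have h3 : hd j (io j (hd j y⁻¹)⁻¹ * z) ≠ 1 := by
    rw [hd_io_mul]
    exact fun e => hz (inv_mul_eq_one.1 e).symm
  have e1 := hd_mul_of_red h3 h1 h2
  rw [mul_assoc, ← mul_assoc (io j _), ← map_mul, mul_inv_cancel, map_one, one_mul] at e1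
  rw [e1, hd_mul_io h]

/-- The vertices of type `i`. -/
abbrev Vx (G : Type) [Group G] (i : Bool) : Type := FP G ⧸ (io (G := G) i).range

theorem out_mk (i : Bool) (g : FP G) : ∃ c : G, (QuotientGroup.mk g : Vx G i).out = g * io i c := by
  obtain ⟨⟨_, c, rfl⟩, h⟩ := QuotientGroup.mk_out_eq_mul (io (G := G) i).range g
  exact ⟨c, h⟩

theorem hd_rep (i : Bool) (g x : FP G) (c : G) :
    hd i ((g * io i c)⁻¹ * x) = c⁻¹ * hd i (g⁻¹ * x) := by
  rw [mul_inv_rev, ← map_inv, mul_assoc, hd_io_mul]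

/-- The vertices separating two edges. -/
def Sep (i : Bool) (x y : FP G) : Set (Vx G i) := {v | hd i (v.out⁻¹ * x) ≠ hd i (v.out⁻¹ * y)}

theorem mk_mem_Sep {i : Bool} {x y g : FP G} :
    (QuotientGroup.mk g : Vx G i) ∈ Sep i x y ↔ hd i (g⁻¹ * x) ≠ hd i (g⁻¹ * y) := by
  obtain ⟨c, hc⟩ := out_mk i g
  show hd i (_ * x) ≠ hd i (_ * y) ↔ _
  rw [hc, hd_rep, hd_rep, ne_eq, mul_right_inj]

theorem Sep_finite (i : Bool) (x y : FP G) : (Sep i x y).Finite := by
  have key : ∀ y x : FP G, (Sep i x (x * y)).Finite := by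
    intro y
    induction y using CoprodI.induction_left with
    | one =>
      intro x
      refine Set.finite_empty.subset fun v hv => ?_
      exact hv (by rw [mul_one])
    | mul c y ih =>
      rename_i j
      intro x
      refine ((Set.finite_singleton (QuotientGroup.mk x : Vx G i)).union
        (ih (x * io j c))).subset fun v hv => ?_
      by_contra hc
      simp only [Set.mem_union, Set.mem_singleton_iff, not_or] at hc
      apply hv
      have h1 : hd i (v.out⁻¹ * (x * io j c)) = hd i (v.out⁻¹ * (x * io j c * y)) :=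
        not_not.1 hc.2
      have h2 : hd i (v.out⁻¹ * x * io j c) = hd i (v.out⁻¹ * x) := hd_mul_io (fun h => hc.1 (by
        rw [← QuotientGroup.out_eq' v]
        exact QuotientGroup.eq.2 h.2)) c
      rw [← h2, mul_assoc, h1, mul_assoc x]
      rfl
  have := key (x⁻¹ * y) x
  rwa [mul_inv_cancel_left] at this

/-- Three pairwise distinct values on `L`. -/
def Three {T : Type} (f : T → G) (L : Set T) : Prop :=
  ∃ a ∈ L, ∃ b ∈ L, ∃ c ∈ L, f a ≠ f b ∧ f a ≠ f c ∧ f b ≠ f c

/-- The vertex `g G_i` is the centre of three edges. -/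
def Tri (i : Bool) (g x y z : FP G) : Prop :=
  hd i (g⁻¹ * x) ≠ hd i (g⁻¹ * y) ∧ hd i (g⁻¹ * x) ≠ hd i (g⁻¹ * z) ∧
    hd i (g⁻¹ * y) ≠ hd i (g⁻¹ * z)

theorem Tri.unique {i : Bool} {g g' x y z : FP G} (h : Tri i g x y z) (h' : Tri i g' x y z) :
    (QuotientGroup.mk g : Vx G i) = QuotientGroup.mk g' := by
  by_contra hne
  have h0 : ¬ (i = i ∧ g'⁻¹ * g ∈ (io i).range) := fun e => hne (QuotientGroup.eq.2 e.2).symm
  have key : ∀ w : FP G, hd i (g'⁻¹ * w) = hd i (g'⁻¹ * g) ∨
      hd i (g⁻¹ * w) = hd i (g'⁻¹ * g)⁻¹ := fun w => by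
    have := hd_mul_or h0 (g⁻¹ * w)
    rwa [mul_assoc, mul_inv_cancel_left] at this
  obtain ⟨a1, a2, a3⟩ := h
  obtain ⟨b1, b2, b3⟩ := h'
  rcases key x with hx | hx <;> rcases key y with hy | hy <;> rcases key z with hz | hz <;>
    first
      | exact b1 (hx.trans hy.symm)
      | exact b2 (hx.trans hz.symm)
      | exact b3 (hy.trans hz.symm)
      | exact a1 (hx.trans hy.symm)
      | exact a2 (hx.trans hz.symm)
      | exact a3 (hy.trans hz.symm)

theorem three_finite (i : Bool) {T : Type} {L : Set T} (hL : L.Finite) (e : T → FP G) :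
    {v : Vx G i | Three (fun t => hd i (v.out⁻¹ * e t)) L}.Finite := by
  refine ((hL.prod (hL.prod hL)).biUnion
    (t := fun p => {v : Vx G i | Tri i v.out (e p.1) (e p.2.1) (e p.2.2)})
    fun p _ => Set.Subsingleton.finite fun v hv w hw => ?_).subset ?_
  · rw [← QuotientGroup.out_eq' v, ← QuotientGroup.out_eq' w]
    exact Tri.unique hv hw
  · rintro v ⟨a, ha, b, hb, c, hc, h⟩
    exact Set.mem_biUnion (x := (a, b, c)) ⟨ha, hb, hc⟩ h

/-- Ping-pong: the direction of the powers of `s t⁻¹` is eventually that of `s k`. -/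
theorem pingpong {g k s s' t : FP G} (hg : hd false g⁻¹ = 1) (hk : hd true k⁻¹ = 1)
    (hs : hd false (g⁻¹ * s) = 1) (ht : hd true (k⁻¹ * t⁻¹) = 1)
    (ha : hd false (g⁻¹ * (s * k)) ≠ 1) (ha' : hd false (g⁻¹ * (s' * k)) ≠ 1)
    (haa : hd false (g⁻¹ * (s * k)) ≠ hd false (g⁻¹ * (s' * k)))
    (hr : hd true (k⁻¹ * (t⁻¹ * g)) ≠ 1) :
    ∀ᶠ N : ℕ in atTop, hd false (g⁻¹ * (s * t⁻¹) ^ N) = hd false (g⁻¹ * (s * k)) := by
  set u := g⁻¹ * (s * k) with hu
  set r := k⁻¹ * (t⁻¹ * g) with hr'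
  set a := hd false u with hadef
  set a' := hd false (g⁻¹ * (s' * k))
  have hu1 : hd true u⁻¹ = 1 := by
    rcases hd_mul_or (i := false) (j := true) (y := u) (by simp) k⁻¹ with h | h
    · have e : u * k⁻¹ = g⁻¹ * s := by rw [hu]; group
      rw [e, hs] at h
      exact absurd h.symm ha
    · rw [← h, hk]
  have hr1 : hd false r⁻¹ = 1 := by
    rcases hd_mul_or (i := true) (j := false) (y := r) (by simp) g⁻¹ with h | h
    · have e : r * g⁻¹ = k⁻¹ * t⁻¹ := by rw [hr']; group
      rw [e, ht] at h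
      exact absurd h.symm hr
    · rw [← h, hg]
  have step : ∀ z : FP G, hd false z ≠ 1 → hd false (u * r * z) = a := fun z hz => by
    have h1 : hd true (r * z) = hd true r := hd_mul_of_red hz hr1 (Or.inr (by simp))
    rw [mul_assoc]
    exact hd_mul_of_red (h1 ▸ hr) hu1 (Or.inr (by simp))
  have iter : ∀ z : FP G, hd false z ≠ 1 → ∀ n : ℕ, hd false ((u * r) ^ (n + 1) * z) = a := by
    intro z hz n
    induction n with
    | zero => rw [zero_add, pow_one]; exact step z hz
    | succ n ih =>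
      rw [pow_succ', mul_assoc]
      exact step _ (ih ▸ ha)
  have hconj : ∀ N : ℕ, g⁻¹ * (s * t⁻¹) ^ N = (u * r) ^ N * g⁻¹ := fun N => by
    have e : u * r = g⁻¹ * (s * t⁻¹) * g⁻¹⁻¹ := by rw [hu, hr']; group
    rw [e, conj_pow]
    group
  have hex : ∃ N : ℕ, hd false ((u * r) ^ N * g⁻¹) ≠ 1 := by
    by_contra hall
    push Not at hall
    have hmem : ∀ N : ℕ, (QuotientGroup.mk ((u * r) ^ (N + 1))⁻¹ : Vx G false) ∈
        Sep false g⁻¹ (io false a) := fun N => by
      rw [mk_mem_Sep, inv_inv, hall, iter _ (by rwa [hd_io])]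
      exact ha.symm
    obtain ⟨m, n, hmn, he⟩ := (Sep_finite false g⁻¹ (io false a)).exists_lt_map_eq_of_forall_mem hmem
    obtain ⟨c, hc⟩ := QuotientGroup.eq.1 he.symm
    obtain ⟨d, rfl⟩ := Nat.exists_eq_add_of_lt hmn
    have hc' : io false c = (u * r) ^ (d + 1) := by
      rw [hc]
      group
    have e1 := iter (io false a) (by rwa [hd_io]) d
    have e2 := iter (io false a') (by rwa [hd_io]) d
    rw [← hc', hd_io_mul, hd_io] at e1 e2
    exact haa (mul_left_cancel (e1.trans e2.symm))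
  obtain ⟨N, hN⟩ := hex
  filter_upwards [eventually_gt_atTop N] with n hn
  obtain ⟨d, rfl⟩ := Nat.exists_eq_add_of_lt hn
  rw [hconj, ← iter _ hN d, ← mul_assoc ((u * r) ^ (d + 1)), ← pow_add]
  congr 3
  omega

end Tree62

end Pool.Agent.Lib.MP_99fcc5_gt
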