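import Pool.Agent.Shared.Sing.Lists
import Pool.Agent.Lib.MP_99fcc5_gt.GLA

/-! A cocycle on the free product of two copies of a group, invariant on both sides. -/

namespace Pool.Agent.Lib.MP_99fcc5_gt

open Pool.Agent.Shared.Sing

namespace Tree62

open Filter

variable {G : Type} [Group G]

/-- The index type of the two-sided cocycle. -/
abbrev TT (G : Type) [Group G] : Type := (FP G × FP G) ⊕ FP G

/-- The first edge attached to an index. -/
def e1 (k : FP G) : TT G → FP G := Sum.elim Prod.fst (· * k)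

/-- The second edge attached to an index. -/
def e2 (g : FP G) : TT G → FP G := Sum.elim Prod.snd (·⁻¹ * g)

/-- The first direction. -/
noncomputable def F1 (g k : FP G) (t : TT G) : G := hd false (g⁻¹ * e1 k t)

/-- The second direction. -/
noncomputable def F2 (g k : FP G) (t : TT G) : G := hd true (k⁻¹ * e2 g t)

theorem F1_rep (g k : FP G) (c c' : G) (t : TT G) :
    F1 (g * io false c) (k * io true c') t = c⁻¹ * F1 g k t := by
  unfold F1
  rw [hd_rep]
  rcases t with p | d
  · rfl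
  · show _ * hd false (g⁻¹ * (d * (k * io true c'))) = _ * hd false (g⁻¹ * (d * k))
    rw [← mul_assoc d, ← mul_assoc g⁻¹, hd_mul_io (by simp)]

theorem F2_rep (g k : FP G) (c c' : G) (t : TT G) :
    F2 (g * io false c) (k * io true c') t = c'⁻¹ * F2 g k t := by
  unfold F2
  rw [hd_rep]
  rcases t with p | d
  · rfl
  · show _ * hd true (k⁻¹ * (d⁻¹ * (g * io false c))) = _ * hd true (k⁻¹ * (d⁻¹ * g))
    rw [← mul_assoc d⁻¹, ← mul_assoc k⁻¹, hd_mul_io (by simp)]

theorem F1_act (g k : FP G) (x : FP G × FP G) (t : TT G) :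
    F1 (x.1 * g) (x.2 * k) (Sum.map (x * ·) (fun d => x.1 * d * x.2⁻¹) t) = F1 g k t := by
  unfold F1
  congr 1
  rcases t with p | d
  · show _ * (x.1 * p.1) = _ * p.1
    group
  · show _ * (x.1 * d * x.2⁻¹ * (x.2 * k)) = _ * (d * k)
    group

theorem F2_act (g k : FP G) (x : FP G × FP G) (t : TT G) :
    F2 (x.1 * g) (x.2 * k) (Sum.map (x * ·) (fun d => x.1 * d * x.2⁻¹) t) = F2 g k t := by
  unfold F2
  congr 1
  rcases t with p | d
  · show _ * (x.2 * p.2) = _ * p.2
    group
  · show _ * ((x.1 * d * x.2⁻¹)⁻¹ * (x.1 * g)) = _ * (d⁻¹ * g)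
    group

theorem Three.two {T : Type} {f f' : T → G} {L : Set T} (h : Three f L) (c : G)
    (hf : ∀ t, f' t = c * f t) : ∃ a ∈ L, ∃ b ∈ L, f' a ≠ 1 ∧ f' b ≠ 1 ∧ f' a ≠ f' b := by
  obtain ⟨a, ha, b, hb, d, hd', h1, h2, h3⟩ := h
  have key : ∀ x y, f x ≠ f y → f' x ≠ f' y := fun x y hxy e =>
    hxy (mul_left_cancel (a := c) (by rw [← hf, ← hf, e]))
  by_cases e1 : f' a = 1
  · exact ⟨b, hb, d, hd', e1 ▸ (key _ _ h1).symm, e1 ▸ (key _ _ h2).symm, key _ _ h3⟩
  by_cases e2 : f' b = 1
  · exact ⟨a, ha, d, hd', e1, e2 ▸ (key _ _ h3).symm, key _ _ h2⟩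
  · exact ⟨a, ha, b, hb, e1, e2, key _ _ h1⟩

theorem Tri.of_rep {i : Bool} {g x y z : FP G} {c : G} (h : Tri i (g * io i c) x y z) :
    Tri i g x y z := by
  unfold Tri at h ⊢
  simpa only [hd_rep, ne_eq, mul_right_inj] using h

theorem good_finite {L : Set (TT G)} (hL : L.Finite) :
    {p : Vx G false × Vx G true |
      Three (F1 p.1.out p.2.out) L ∧ Three (F2 p.1.out p.2.out) L}.Finite := by
  set S := {p : Vx G false × Vx G true |
      Three (F1 p.1.out p.2.out) L ∧ Three (F2 p.1.out p.2.out) L} with hS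
  have fib1 : ∀ v, {p ∈ S | p.1 = v}.Finite := fun v =>
    ((three_finite true hL (e2 v.out)).image fun w => (v, w)).subset (by
      rintro ⟨v', w⟩ ⟨h, rfl⟩
      exact ⟨w, h.2, rfl⟩)
  have fib2 : ∀ w, {p ∈ S | p.2 = w}.Finite := fun w =>
    ((three_finite false hL (e1 w.out)).image fun v => (v, w)).subset (by
      rintro ⟨v, w'⟩ ⟨h, rfl⟩
      exact ⟨v, h.1, rfl⟩)
  have hB1 : (⋃ t ∈ L, Sep false 1 (e1 1 t)).Finite := hL.biUnion fun t _ => Sep_finite _ _ _
  have hB2 : (⋃ t ∈ L, Sep true 1 (e2 1 t)).Finite := hL.biUnion fun t _ => Sep_finite _ _ _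
  have hD : (Sum.inr ⁻¹' L : Set (FP G)).Finite := hL.preimage Sum.inr_injective.injOn
  have hV := (hD.prod (hD.prod hD)).biUnion
    (t := fun q => {v : Vx G false | ∀ᶠ N : ℕ in atTop,
      Tri false v.out 1 ((q.1 * q.2.2⁻¹) ^ N) ((q.2.1 * q.2.2⁻¹) ^ N)})
    fun q _ => Set.Subsingleton.finite fun v hv w hw => by
      obtain ⟨N, h1, h2⟩ := (Eventually.and hv hw).exists
      rw [← QuotientGroup.out_eq' v, ← QuotientGroup.out_eq' w]
      exact Tri.unique h1 h2
  refine (((hB1.union hV).biUnion fun v _ => fib1 v).union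
    (hB2.biUnion fun w _ => fib2 w)).subset ?_
  rintro ⟨v, w⟩ hp
  by_cases hw : w ∈ ⋃ t ∈ L, Sep true 1 (e2 1 t)
  · exact Or.inr (Set.mem_biUnion hw ⟨hp, rfl⟩)
  refine Or.inl (Set.mem_biUnion (x := v) ?_ ⟨hp, rfl⟩)
  by_cases hv : v ∈ ⋃ t ∈ L, Sep false 1 (e1 1 t)
  · exact Or.inl hv
  right
  set c := hd false v.out⁻¹ with hc
  set c' := hd true w.out⁻¹ with hc'
  have hg1 : ∀ t ∈ L, hd false ((v.out * io false c)⁻¹ * e1 1 t) = 1 := fun t ht => by
    have : hd false (v.out⁻¹ * 1) = hd false (v.out⁻¹ * e1 1 t) := by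
      by_contra h
      exact hv (Set.mem_biUnion ht h)
    rw [hd_rep, ← this, mul_one, inv_mul_cancel]
  have hk1 : ∀ t ∈ L, hd true ((w.out * io true c')⁻¹ * e2 1 t) = 1 := fun t ht => by
    have : hd true (w.out⁻¹ * 1) = hd true (w.out⁻¹ * e2 1 t) := by
      by_contra h
      exact hw (Set.mem_biUnion ht h)
    rw [hd_rep, ← this, mul_one, inv_mul_cancel]
  have hg : hd false (v.out * io false c)⁻¹ = 1 := by
    rw [← mul_one (v.out * io false c)⁻¹, hd_rep, mul_one, inv_mul_cancel]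
  have hk : hd true (w.out * io true c')⁻¹ = 1 := by
    rw [← mul_one (w.out * io true c')⁻¹, hd_rep, mul_one, inv_mul_cancel]
  obtain ⟨s, hs, s', hs', a1, a2, a3⟩ := hp.1.two c⁻¹ (F1_rep v.out w.out c c')
  obtain ⟨t, ht, -, -, b1, -, -⟩ := hp.2.two c'⁻¹ (F2_rep v.out w.out c c')
  rcases s with p | s
  · exact absurd (hg1 _ hs) a1
  rcases s' with p | s'
  · exact absurd (hg1 _ hs') a2
  rcases t with p | t
  · exact absurd (hk1 _ ht) b1
  have c1 : hd false ((v.out * io false c)⁻¹ * s) = 1 := by simpa [e1] using hg1 _ hs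
  have c2 : hd false ((v.out * io false c)⁻¹ * s') = 1 := by simpa [e1] using hg1 _ hs'
  have c3 : hd true ((w.out * io true c')⁻¹ * t⁻¹) = 1 := by simpa [e2] using hk1 _ ht
  have p1 := pingpong hg hk c1 c3 a1 a2 a3 b1
  have p2 := pingpong hg hk c2 c3 a2 a1 (Ne.symm a3) b1
  refine Set.mem_biUnion (x := (s, s', t)) ⟨hs, hs', ht⟩ ?_
  filter_upwards [p1, p2] with N h1 h2
  refine Tri.of_rep (c := c) ⟨?_, ?_, ?_⟩
  · rw [mul_one, hg, h1]
    exact a1.symm
  · rw [mul_one, hg, h2]
    exact a2.symm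
  · rw [h1, h2]
    exact a3

theorem smul_out (i : Bool) (g : FP G) (v : Vx G i) :
    ∃ c : G, (g • v).out = g * v.out * io i c := by
  rw [← MulAction.Quotient.mk_smul_out]
  exact out_mk i _

theorem lc_finsum {ι β : Type} (F : ι → β → ℚ) (c : β →₀ ℚ)
    (h : ∀ b ∈ c.support, (Function.support fun v => F v b).Finite) :
    lc (R := ℚ) (fun b => ∑ᶠ v, F v b) c = ∑ᶠ v, lc (R := ℚ) (F v) c := by
  simp only [Finsupp.linearCombination_apply, Finsupp.sum, smul_eq_mul, mul_finsum]
  exact sum_finsum_comm _ _ fun b hb => (h b hb).subset fun v hv => right_ne_zero_of_mul hv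

omit [Group G] in
theorem three_of_nodup {T : Type} {f : T → G} {L : Set T} {m : List T} (h3 : m.length = 3)
    (hL : ∀ x ∈ m, x ∈ L) (h : (m.map f).Nodup) : Three f L := by
  obtain ⟨a, b, c, rfl⟩ := List.length_eq_three.1 h3
  refine ⟨a, hL a (by simp), b, hL b (by simp), c, hL c (by simp), ?_⟩
  simpa [and_assoc] using h

omit [Group G] in
theorem lc_map_bd {T : Type} (α : List G → ℚ)
    (h2 : ∀ l : List G, l.length = 4 → lc (R := ℚ) α (bdL ℚ l) = 0) (f : T → G) (l : List T)
    (hl : l.length = 4) : lc (R := ℚ) (fun m => α (m.map f)) (bdL ℚ l) = 0 := by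
  rw [← lc_lmap, lmap_bdL]
  exact h2 _ (by simpa using hl)

theorem cup_coc {T : Type} (φ ψ : List T → ℚ)
    (hφ : ∀ l : List T, l.length = 4 → lc (R := ℚ) φ (bdL ℚ l) = 0)
    (hψ : ∀ l : List T, l.length = 4 → lc (R := ℚ) ψ (bdL ℚ l) = 0) (l : List T)
    (hl : l.length = 6) :
    lc (R := ℚ) (fun m => φ (m.take 3) * ψ (m.drop 2)) (bdL ℚ l) = 0 := by
  match l, hl with
  | [a, b, c, d, e, f], _ =>
    have h1 := hφ [a, b, c, d] rfl
    have h2 := hψ [c, d, e, f] rfl
    simp only [bdL, map_sub, map_zero, sub_zero, cone_single, Finsupp.linearCombination_single,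
      one_smul, List.take, List.drop] at h1 h2 ⊢
    linear_combination ψ [d, e, f] * h1 + φ [a, b, c] * h2

/-- The cocycle attached to the vertices of type `i`. -/
noncomputable def aa (α : List G → ℚ) (i : Bool) (l : List (FP G)) : ℚ :=
  ∑ᶠ v : Vx G i, α (l.map fun x => hd i (v.out⁻¹ * x))

theorem aa_fin {α : List G → ℚ} (h3 : ∀ l : List G, ¬ l.Nodup → α l = 0) (i : Bool)
    {l : List (FP G)} (hl : l.length = 3) :
    (Function.support fun v : Vx G i => α (l.map fun x => hd i (v.out⁻¹ * x))).Finite :=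
  (three_finite i (List.finite_toSet l) id).subset fun _ hv =>
    three_of_nodup hl (fun _ hx => hx) (not_not.1 fun h => hv (h3 _ h))

/-- The two-sided cocycle. -/
noncomputable def Ph (α : List G → ℚ) (l : List (TT G)) : ℚ :=
  ∑ᶠ p : Vx G false × Vx G true, α ((l.take 3).map (F1 p.1.out p.2.out)) *
    α ((l.drop 2).map (F2 p.1.out p.2.out))

end Tree62

open Tree62 in
theorem group_lemma {G : Type} [Group G] (α : List G → ℚ)
    (h1 : ∀ (g : G) (l : List G), α (l.map (g * ·)) = α l)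
    (h2 : ∀ l : List G, l.length = 4 → lc (R := ℚ) α (bdL ℚ l) = 0)
    (h3 : ∀ l : List G, ¬ l.Nodup → α l = 0) :
    ∃ (P : Type) (_ : Group P) (ι : Bool → G →* P) (a : Bool → List P → ℚ)
      (Φ : List ((P × P) ⊕ P) → ℚ),
      (∀ i (g : P) (l : List P), a i (l.map (g * ·)) = a i l) ∧
      (∀ i (l : List P), l.length = 4 → lc (R := ℚ) (a i) (bdL ℚ l) = 0) ∧
      (∀ i j (l : List G), l.length = 3 → a i (l.map (ι j)) = if i = j then α l else 0) ∧
      (∀ (x : P × P) (l : List ((P × P) ⊕ P)),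
        Φ (l.map (Sum.map (x * ·) fun d => x.1 * d * x.2⁻¹)) = Φ l) ∧
      (∀ l : List ((P × P) ⊕ P), l.length = 6 → lc (R := ℚ) Φ (bdL ℚ l) = 0) ∧
      ∀ l : List (P × P), l.length = 5 → Φ (l.map Sum.inl) =
        a false ((l.take 3).map Prod.fst) * a true ((l.drop 2).map Prod.snd) := by
  have h1' : ∀ {T : Type} (c : G) (f f' : T → G) (l : List T), (∀ t, f' t = c * f t) →
      α (l.map f') = α (l.map f) := fun c f f' l h => by
    rw [← h1 c (l.map f), List.map_map]
    exact congrArg α (List.map_congr_left fun t _ => h t)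
  refine ⟨FP G, inferInstance, io, aa α, Ph α, fun i g l => ?_, fun i l hl => ?_,
    fun i j l hl => ?_, fun x l => ?_, fun l hl => ?_, fun l hl => ?_⟩
  · unfold aa
    rw [← finsum_comp_equiv (MulAction.toPerm g : Equiv.Perm (Vx G i))]
    refine finsum_congr fun v => ?_
    obtain ⟨c, hc⟩ := smul_out i g v
    rw [MulAction.toPerm_apply, hc, List.map_map]
    refine h1' c⁻¹ _ _ l fun t => ?_
    rw [Function.comp_apply, hd_rep, mul_inv_rev, mul_assoc, inv_mul_cancel_left]
  · unfold aa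
    rw [lc_finsum]
    · exact finsum_eq_zero_of_forall_eq_zero fun v => lc_map_bd α h2 _ l hl
    · intro m hm
      have := (Finsupp.mem_supported ℚ _).1 (bdL_mem (R := ℚ) l) hm
      exact aa_fin h3 i (by have := this.1; omega)
  · have hz : ∀ v : Vx G i, ¬ (i = j ∧ v.out⁻¹ ∈ (io i).range) →
        α ((l.map (io j)).map fun x => hd i (v.out⁻¹ * x)) = 0 := fun v hv => by
      apply h3
      obtain ⟨a, b, c, rfl⟩ := List.length_eq_three.1 hl
      simp [hd_mul_io hv]
    unfold aa
    split_ifs with hij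
    · subst hij
      rw [finsum_eq_single _ (QuotientGroup.mk 1 : Vx G i) fun v hv => hz v fun h => hv (by
        rw [← QuotientGroup.out_eq' v]
        exact QuotientGroup.eq.2 (by simpa using h.2))]
      obtain ⟨c, hc⟩ := out_mk i (1 : FP G)
      rw [hc, List.map_map, h1' c⁻¹ id _ l fun t => by
        rw [Function.comp_apply, hd_rep, inv_one, one_mul, hd_io, id], List.map_id]
    · exact finsum_eq_zero_of_forall_eq_zero fun v => hz v fun h => hij h.1
  · unfold Ph
    rw [← finsum_comp_equiv (Equiv.prodCongr (MulAction.toPerm x.1 : Equiv.Perm (Vx G false))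
      (MulAction.toPerm x.2 : Equiv.Perm (Vx G true)))]
    refine finsum_congr fun p => ?_
    obtain ⟨c, hc⟩ := smul_out false x.1 p.1
    obtain ⟨c', hc'⟩ := smul_out true x.2 p.2
    simp only [Equiv.prodCongr_apply, Prod.map_fst, Prod.map_snd, MulAction.toPerm_apply, hc, hc',
      ← List.map_take, ← List.map_drop, List.map_map]
    congr 1
    · exact h1' c⁻¹ _ _ _ fun t => by rw [Function.comp_apply, F1_rep, F1_act]
    · exact h1' c'⁻¹ _ _ _ fun t => by rw [Function.comp_apply, F2_rep, F2_act]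
  · unfold Ph
    rw [lc_finsum]
    · exact finsum_eq_zero_of_forall_eq_zero fun p =>
        cup_coc (fun m => α (m.map (F1 p.1.out p.2.out))) (fun m => α (m.map (F2 p.1.out p.2.out)))
          (lc_map_bd α h2 _) (lc_map_bd α h2 _) l hl
    · intro m hm
      obtain ⟨hm1, hm2⟩ := (Finsupp.mem_supported ℚ _).1 (bdL_mem (R := ℚ) l) hm
      refine (good_finite (List.finite_toSet l)).subset fun p hp => ⟨?_, ?_⟩
      · exact three_of_nodup (m := m.take 3) (by rw [List.length_take]; omega)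
          (fun x hx => hm2 x (List.mem_of_mem_take hx))
          (not_not.1 fun h => left_ne_zero_of_mul hp (h3 _ h))
      · exact three_of_nodup (m := m.drop 2) (by rw [List.length_drop]; omega)
          (fun x hx => hm2 x (List.mem_of_mem_drop hx))
          (not_not.1 fun h => right_ne_zero_of_mul hp (h3 _ h))
  · have f1 := aa_fin h3 false (l := (l.take 3).map Prod.fst)
      (by rw [List.length_map, List.length_take]; omega)
    have f2 := aa_fin h3 true (l := (l.drop 2).map Prod.snd)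
      (by rw [List.length_map, List.length_drop]; omega)
    have e : Ph α (l.map Sum.inl) = ∑ᶠ p : Vx G false × Vx G true,
        α (((l.take 3).map Prod.fst).map fun x => hd false (p.1.out⁻¹ * x)) *
          α (((l.drop 2).map Prod.snd).map fun x => hd true (p.2.out⁻¹ * x)) := by
      unfold Ph
      refine finsum_congr fun p => ?_
      rw [← List.map_take, ← List.map_drop, List.map_map, List.map_map, List.map_map,
        List.map_map]
      rfl
    rw [e, finsum_curry _ ((f1.prod f2).subset fun p hp =>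
      ⟨left_ne_zero_of_mul hp, right_ne_zero_of_mul hp⟩)]
    unfold aa
    rw [finsum_mul]
    exact finsum_congr fun v => by rw [mul_finsum]

end Pool.Agent.Lib.MP_99fcc5_gt
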