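import Pool.Agent.Lib.MP_c77dc5_gt.Main
import Pool.Agent.Shared.Sing.Alt

/-! Vertex labels of singular simplices, recursive homotopies, gluing of cochains. -/

set_option linter.unusedSectionVars false

namespace Pool.Agent.Lib.MP_99fcc5_gt

open Finsupp Set Topology Pool.Agent.Shared.Sing Pool.Agent.Lib.MP_c77dc5_gt

variable {R : Type} [CommRing R] {Y Y' : Type*} [TopologicalSpace Y] [Nonempty Y]
  [TopologicalSpace Y'] [Nonempty Y'] {M M' : Type*} [AddCommGroup M] [Module R M]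
  [AddCommGroup M'] [Module R M'] {S : Set Y} {n : ℕ} {c : C R Y}

section gz

variable (h : Sx Y → M →ₗ[R] M) (A : C R Y →ₗ[R] M)

noncomputable def gzN : ℕ → Sx Y → M
  | 0, _ => 0
  | n + 1, s => h s (A (single s 1) - lc (gzN n) (D (single s (1 : R))))

/-- The homotopy defined by recursion on the dimension. -/
noncomputable def gz : C R Y →ₗ[R] M := lc fun s => gzN h A s.n s

lemma gz_zero (hc : c ∈ In R S 0) : gz h A c = 0 :=
  map_eq (G := 0) (fun s hs => by simp [gz, hs.1, gzN]) hc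

lemma gz_succ {s : Sx Y} (hs : s.n = n + 1) :
    gz h A (single s 1) = h s (A (single s 1) - gz h A (D (single s 1))) := by
  rw [gz, linearCombination_single, one_smul, hs, gzN]
  congr 2
  exact map_eq (fun t ht => by simp [ht.1]) (D_In (hs ▸ single_In s))

variable {h A}

lemma D_zero (hc : c ∈ In R S 0) : D c = 0 :=
  map_eq (G := 0) (fun s hs => by simp [D_single, hs.1, std, bdL]) hc

theorem gz_spec (d : M →ₗ[R] M) (hh : ∀ s x, d (h s x) + h s (d x) = x)
    (hA : ∀ n, ∀ c ∈ In R S n, d (A c) = A (D c)) (h0 : ∀ c ∈ In R S 0, A c = 0)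
    (hc : c ∈ In R S n) : d (gz h A c) + gz h A (D c) = A c := by
  induction n generalizing c with
  | zero => simp [gz_zero h A hc, D_zero hc, h0 c hc]
  | succ n ih =>
    refine map_eq (F := d ∘ₗ gz h A + gz h A ∘ₗ D) (fun s hs => ?_) hc
    have h1 := ih (D_In (single_mem hs : single s (1 : R) ∈ In R S (n + 1)))
    have h2 := hh s (A (single s 1) - gz h A (D (single s 1)))
    rw [D_D, map_zero, add_zero] at h1
    rw [map_sub d, h1, hA _ _ (single_mem hs), sub_self, map_zero, add_zero, ← gz_succ h A hs.1]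
      at h2
    simp [h2]

theorem gz_nat {h' : Sx Y → M' →ₗ[R] M'} {A' : C R Y →ₗ[R] M'} (τ : M →ₗ[R] M')
    (hh : ∀ s : Sx Y, s.n ≠ 0 → MapsTo s.f (Δ s.n) S → ∀ x, τ (h s x) = h' s (τ x))
    (hA : ∀ n, ∀ c ∈ In R S n, τ (A c) = A' c) (hc : c ∈ In R S n) :
    τ (gz h A c) = gz h' A' c := by
  induction n generalizing c with
  | zero => simp [gz_zero _ _ hc]
  | succ n ih =>
    refine map_eq (F := τ ∘ₗ gz h A) (fun s hs => ?_) hc
    rw [LinearMap.comp_apply, gz_succ h A hs.1, gz_succ h' A' hs.1, hh s (by rw [hs.1]; omega) hs.2,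
      map_sub, hA _ _ (single_mem hs), ih (D_In (single_mem hs))]

end gz

section lab

variable {T T' : Type*}

/-- The list of the labels of the vertices. -/
noncomputable def lab (κ : Y → T) : C R Y →ₗ[R] Ch R T :=
  lc fun s => single ((std s.n).map (κ ∘ s.f)) 1

lemma lab_single (κ : Y → T) (s : Sx Y) :
    lab κ (single s (1 : R)) = single ((std s.n).map (κ ∘ s.f)) 1 := by simp [lab]

lemma lab_real (κ : Y → T) {K : Set V} (hK : Convex ℝ K) {F : V → Y} (hF : ContinuousOn F K)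
    {a : Ch R V} (ha : a ∈ Lin R K n) : lab κ (real F a) = lmap (κ ∘ F) a := by
  refine map_eq (F := lab κ ∘ₗ real F) (fun l hl => ?_) ha
  simp only [LinearMap.comp_apply, real_single, lab_single, lmap_single, mk_n]
  congr 1
  conv_rhs => rw [← map_aff_std l, List.map_map]
  exact List.map_congr_left fun t ht => congrArg κ (mk_f (cont_aff hK hF hl.2) (std_mem t ht))

lemma lab_D (κ : Y → T) (c : C R Y) : lab κ (D c) = bd (lab κ c) :=
  map_eq (F := lab κ ∘ₗ D) (G := bd ∘ₗ lab κ) (fun s _ => by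
    simp only [LinearMap.comp_apply, D_single, lab_single, bd_single]
    rw [lab_real κ (convex_Δ _) s.cont (bdL_std _), lmap_bdL]) (mem_top c)

lemma lab_congr {κ : Y → T} {κ' : Y → T'} (f : T → T') (h : ∀ y ∈ S, κ' y = f (κ y))
    (hc : c ∈ In R S n) : lab κ' c = lmap f (lab κ c) :=
  map_eq (G := lmap f ∘ₗ lab κ) (fun s hs => by
    simp only [LinearMap.comp_apply, lab_single, lmap_single, List.map_map]
    exact congrArg (single · 1) (List.map_congr_left fun t ht => h _ (hs.2 (std_mem t ht)))) hc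

lemma lab_map (κ : Y' → T) {g : Y → Y'} (hg : ContinuousOn g S) (hc : c ∈ In R S n) :
    lab κ (map g c) = lab (κ ∘ g) c :=
  map_eq (F := lab κ ∘ₗ map g) (fun s hs => by
    simp only [LinearMap.comp_apply, map_single, lab_single, mk_n]
    exact congrArg (single · 1) (List.map_congr_left fun t ht =>
      congrArg κ (mk_f (hg.comp s.cont hs.2) (std_mem t ht)))) hc

lemma lab_zero (κ : Y → T) (hc : c ∈ In R S 0) : lab κ c = eps c • single [] 1 :=
  map_eq (G := eps.smulRight (single [] 1)) (fun s hs => by simp [lab_single, hs.1, std]) hc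

lemma cup_lab (p : ℕ) (x : List T → R) (y : List T' → R) (κ : Y → T) (κ' : Y → T') {s : Sx Y}
    (hs : p < s.n) : cup p (lc x ∘ₗ lab κ) (lc y ∘ₗ lab κ') (single s 1) =
      x (((std s.n).take (p + 1)).map (κ ∘ s.f)) * y (((std s.n).drop p).map (κ' ∘ s.f)) := by
  have h1 : ∀ l : List V, (∀ t ∈ l, t ∈ std s.n) → single l (1 : R) ∈ Lin R (Δ s.n) l.length :=
    fun l hl => single_mem ⟨rfl, fun t ht => std_mem t (hl t ht)⟩
  simp only [cup, LinearMap.comp_apply, cap_single, capL, length_std, hs, if_true, map_smul]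
  rw [lab_real κ (convex_Δ _) s.cont (h1 _ fun _ => List.mem_of_mem_take),
    lab_real κ' (convex_Δ _) s.cont (h1 _ fun _ => List.mem_of_mem_drop)]
  simp

end lab

/-- Local cochains that agree along every simplex define a global cochain. -/
lemma glue_co {ι : Type*} (Ω : ι → Set Y) (θ : ι → C R Y →ₗ[R] R)
    (h : ∀ i k, ∀ S ⊆ Ω i ∩ Ω k, IsPreconnected S → ∀ n, ∀ c ∈ In R S n, θ i c = θ k c) :
    ∃ Θ : C R Y →ₗ[R] R, ∀ i n, ∀ c ∈ In R (Ω i) n, Θ c = θ i c := by
  classical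
  refine ⟨lc fun s => if h : ∃ i, MapsTo s.f (Δ s.n) (Ω i) then θ h.choose (single s 1) else 0,
    fun i n c hc => map_eq (fun s hs => ?_) hc⟩
  have h1 : ∃ i, MapsTo s.f (Δ s.n) (Ω i) := ⟨i, hs.2⟩
  rw [linearCombination_single, one_smul, dif_pos h1]
  exact h _ _ _ (h1.choose_spec.inter hs.2).image_subset
    ((convex_Δ _).isPreconnected.image _ s.cont) _ _ (single_mem ⟨rfl, mapsTo_image _ _⟩)

lemma cst_of_ev {Γ : Type*} {f : Y → Γ} (hS : IsPreconnected S)
    (h : ∀ x ∈ S, ∀ᶠ y in 𝓝 x, f y = f x) {x y : Y} (hx : x ∈ S) (hy : y ∈ S) : f x = f y := by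
  let _ : TopologicalSpace Γ := ⊥
  have : DiscreteTopology Γ := ⟨rfl⟩
  refine hS.constant (fun a ha => ContinuousAt.continuousWithinAt ?_) hx hy
  rw [ContinuousAt, nhds_discrete Γ, Filter.tendsto_pure]
  exact h a ha

lemma exists_cst {Γ : Type*} [Group Γ] {f g : Y → Γ}
    (h : ∀ x ∈ S, ∀ y ∈ S, g x * (f x)⁻¹ = g y * (f y)⁻¹) : ∃ a, ∀ x ∈ S, g x = a * f x := by
  rcases S.eq_empty_or_nonempty with rfl | ⟨y, hy⟩
  · simp
  · exact ⟨_, fun x hx => eq_mul_of_mul_inv_eq (h x hx y hy)⟩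

lemma exists_trunc (φ : C R Y →ₗ[R] R) (k : ℕ) : ∃ u : C R Y →ₗ[R] R,
    ∀ n, ∀ c ∈ In R univ n, u c = if n = k then φ c else 0 := by
  refine ⟨lc fun s => if s.n = k then φ (single s 1) else 0, fun n c hc => ?_⟩
  split_ifs with h
  · exact map_eq (fun s hs => by simp [hs.1, h]) hc
  · exact map_eq (G := 0) (fun s hs => by simp [hs.1, h]) hc

/-- The group cocycle of a cohomology class of the base of a contractible covering. -/
theorem hopf {E B G : Type*} [TopologicalSpace E] [TopologicalSpace B] [Nonempty B]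
    [ContractibleSpace E] [Group G] [MulAction G E] [ContinuousConstSMul G E] {p : E → B}
    (cv : Cov G p) {φ : C ℚ B →ₗ[ℚ] ℚ} (hφ : Shared.Sing.Coc univ 2 φ) :
    ∃ α : List G → ℚ, (∀ g l, α (l.map (g * ·)) = α l) ∧ (∀ l, lc α (bdL ℚ l) = 0) ∧
      (∀ l, ¬ l.Nodup → α l = 0) ∧ ∀ (X ι : Type _) [TopologicalSpace X] [Nonempty X]
      (g : X → B) (μ : X → E) (Ω : ι → Set X) (s : ι → X → E), Continuous g → (∀ x, p (μ x) = g x) →
      (∀ i x, p (s i x) = g x) → (∀ i, ContinuousOn (s i) (Ω i)) → ∃ a : C ℚ X →ₗ[ℚ] ℚ,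
        Shared.Sing.Coc univ 2 a ∧ Dies univ 2 (φ ∘ₗ map g - a) ∧ ∀ i, ∀ c ∈ In ℚ (Ω i) 3,
          a c = lc α (lab (fun x => quo G (μ x) (s i x)) c) := by
  obtain ⟨H, y, k⟩ := exists_ctr E
  have : Nonempty E := ⟨y⟩
  have hp := cv.loc.continuous
  obtain ⟨h, hh⟩ := exists_contr (R := ℚ) (A := univ) k.cont.continuousOn (mapsTo_univ _ _)
    trivial (fun e _ => k.zero e) fun e _ => k.one e
  replace hh : ∀ c, D (h c) + h (D c) = c :=
    ext_univ (F := D ∘ₗ h + h ∘ₗ D) (G := LinearMap.id) fun n c hc => (hh n c hc).2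
  let h' (g : G) : C ℚ E →ₗ[ℚ] C ℚ E := ρ g ∘ₗ h ∘ₗ ρ g⁻¹
  have h1 : ∀ g x, D (h' g x) + h' g (D x) = x := fun g x => by
    simp only [h', LinearMap.comp_apply, ← ρ_D]
    rw [← map_add, ρ_D, hh, ρ_mul, mul_inv_cancel, ρ_one]
  have h2 : ∀ g a x, ρ g (h' a x) = h' (g * a) (ρ g x) := fun g a x => by simp [h', ρ_mul]
  let e : Sx E := mk 0 fun _ => y
  have he : ∀ f : V → E, mk 0 f = e := fun f => mk_congr (by simp [Δ_zero])
  let K : List G → C ℚ E := zig (single e 1) (fun L => h' (L.headD 1)) 0 1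
  have K1 : ∀ a, D (lc K a) = lc K (bd a) := fun a => map_eq (F := D ∘ₗ lc K) (G := lc K ∘ₗ bd)
    (fun l _ => by
      simpa [K] using zig_spec (b := single e 1) (h := fun L => h' (L.headD 1)) (A := 0)
        (s := 1) D (fun l _ => h1 _) (by simp) (D_zero (single_In e)) l) (mem_top a)
  have K2 : ∀ g a, ρ g (lc K a) = lc K (lmap (g * ·) a) := fun g a => map_eq (F := ρ g ∘ₗ lc K)
    (G := lc K ∘ₗ lmap _) (fun l _ => by
      simpa [K] using zig_nat (b := single e 1) (b' := single e 1) (h := fun L => h' (L.headD 1))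
        (h' := fun L => h' (L.headD 1)) (A := 0) (A' := 0) (s := 1) (g * ·) (ρ g) (fun l hl x => by
          obtain ⟨a, l, rfl⟩ := List.exists_cons_of_ne_nil hl
          exact h2 g a x) (by simp) (by simp [ρ, he, e]) l) (mem_top a)
  let J : Ch ℚ G →ₗ[ℚ] C ℚ E := lc K ∘ₗ lc (retL (avc ℚ))
  have J1 : ∀ a, D (J a) = J (bd a) := fun a => by simp [J, K1, bd_lc_retL avc_spec]
  have J2 : ∀ g a, ρ g (J a) = J (lmap (g * ·) a) := fun g a => by
    simp only [J, LinearMap.comp_apply, K2, lc_lmap, ← lmap_retL (avc_nat _), ← map_lc]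
  obtain ⟨u, hu⟩ := exists_trunc (φ ∘ₗ map p) 3
  have u1 : ∀ c, u (D c) = 0 := ext_univ (F := u ∘ₗ D) (G := 0) fun n c hc =>
    (hu _ _ (D_In' hc)).trans (ite_eq_right_iff.2 fun h => hφ.comp_map hp.continuousOn
      (mapsTo_univ _ _) c (by rwa [show 2 + 2 = n by omega]))
  have u2 : ∀ (g : G) c, u (ρ g c) = u c := fun g => ext_univ (F := u ∘ₗ ρ g) fun n c hc => by
    rw [LinearMap.comp_apply, hu n c hc, ρ, hu n _ (map_In (continuous_const_smul g).continuousOn
      (mapsTo_univ _ _) hc), LinearMap.comp_apply, LinearMap.comp_apply, map_map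
      (continuous_const_smul g).continuousOn hc, map_congr (g := p ∘ fun x => g • x) (g' := p)
      (fun e _ => cv.inv g e) hc]
  have e0 : ∀ a, lc (fun l => u (J (single l 1))) a = u (J a) := fun a =>
    map_eq (G := u ∘ₗ J) (fun l _ => by simp) (mem_top a)
  refine ⟨fun l => u (J (single l 1)), fun g l => by simp only [← lmap_single, ← J2, u2],
    fun l => by rw [e0, ← bd_single, ← J1, u1], fun l hl => by simp [J, alt_dup hl],
    fun X ι _ _ g μ Ω s hg l1 l2 hs => ?_⟩
  let κ (i : ι) (x : X) := quo G (μ x) (s i x)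
  obtain ⟨Θ, hΘ⟩ := glue_co Ω (fun i => u ∘ₗ gz (fun t => h' (κ i (v0 t)))
    (map (s i) - J ∘ₗ lab (κ i))) fun i k S hS h0 n c hc => by
      obtain ⟨a, ha⟩ := exists_cst (S := S) (f := κ i) (g := κ k) fun x hx y hy => by
        simp only [κ, cv.quo_div ((l1 _).trans (l2 _ _).symm) ((l1 _).trans (l2 _ _).symm)]
        exact cv.quo_cst h0 ((hs i).mono fun _ h => (hS h).1) ((hs k).mono fun _ h => (hS h).2)
          (fun x => (l2 _ _).trans (l2 _ _).symm) hx hy
      rw [LinearMap.comp_apply, ← u2 a]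
      refine congrArg u (gz_nat (ρ a) (fun t t0 ht x => by rw [h2, ← ha (v0 t) (ht (e0_mem t0))])
        (fun n c hc => ?_) hc)
      simp only [LinearMap.sub_apply, LinearMap.comp_apply, map_sub]
      rw [J2, ← lab_congr (a * ·) ha hc, ρ, map_map ((hs i).mono fun _ h => (hS h).1) hc,
        map_congr (g' := s k) (fun x hx => ?_) hc]
      rw [← cv.quo_smul ((l1 x).trans (l2 k x).symm), Function.comp_apply,
        ← cv.quo_smul ((l1 x).trans (l2 i x).symm), ← mul_smul]
      exact congrArg (· • μ x) (ha x hx).symm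
  refine ⟨φ ∘ₗ map g - Θ ∘ₗ D, (hφ.comp_map hg.continuousOn (mapsTo_univ _ _)).sub
    fun c _ => by simp, ⟨Θ, fun c _ => by simp⟩, fun i c hc => ?_⟩
  have h3 := congrArg u (gz_spec (h := fun t => h' (κ i (v0 t))) (A := map (s i) - J ∘ₗ lab (κ i))
    D (fun t => h1 _) (fun n c hc => by simp [J1, lab_D, map_D (hs i) hc]) (fun c hc => by
      rw [LinearMap.sub_apply, LinearMap.comp_apply, lab_zero _ hc, sub_eq_zero]
      exact map_eq (G := J ∘ₗ eps.smulRight (single [] 1)) (fun t ht => by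
        simp [ht.1, he, J, retL, zig_nil, K]) hc) hc)
  rw [map_add, u1, zero_add, LinearMap.sub_apply, map_sub, hu 3 _ (map_In (hs i) (mapsTo_univ _ _) hc),
    if_pos rfl, LinearMap.comp_apply, map_map (hs i) hc, map_congr (g := p ∘ s i) (g' := g)
    (fun x _ => l2 i x) hc] at h3
  rw [LinearMap.sub_apply, LinearMap.comp_apply, LinearMap.comp_apply, hΘ i _ _ (D_In hc), e0,
    LinearMap.comp_apply, h3, sub_sub_cancel]
  rfl

end Pool.Agent.Lib.MP_99fcc5_gt
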