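import Pool.Agent.Lib.MP_c77dc5_gt.Conn
import Pool.Agent.Shared.Sing.PD

/-! The fundamental cycle of a connected sum and classes pulled back from the two halves. -/

set_option linter.unusedSectionVars false

namespace Pool.Agent.Lib.MP_99fcc5_gt

open Set Metric Topology Pool.Agent.Shared.Sing Pool.Agent.Shared.SingEZ Pool.Agent.Lib.MP_c77dc5_gt

variable {F : Type} [Field F] {ι : Type*} [Fintype ι]

lemma glue_fund {Y : Type*} [TopologicalSpace Y] [Nonempty Y] [T2Space Y] (hY : LocEuc ι Y)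
    {K K' : Set Y} (hK : IsCompact K) (hK' : IsCompact K') (h1 : IsPreconnected (K ∩ K'))
    (h2 : (K ∩ K').Nonempty) {c c' : C F Y} (hc : c ∈ Z F univ Kᶜ (Fintype.card ι))
    (hc' : c' ∈ Z F univ K'ᶜ (Fintype.card ι)) (h3 : ∀ x ∈ K, c ∉ B F univ {x}ᶜ (Fintype.card ι))
    (h4 : ∀ x ∈ K', c' ∉ B F univ {x}ᶜ (Fintype.card ι)) :
    ∃ e ∈ Z F univ (K ∪ K')ᶜ (Fintype.card ι),
      ∀ x ∈ K ∪ K', e ∉ B F univ {x}ᶜ (Fintype.card ι) := by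
  obtain ⟨x₀, hx⟩ := h2
  obtain ⟨r, hr⟩ := loc_gen hY (Z_anti (singleton_subset_iff.2 hx.2) hc') (h4 x₀ hx.2)
    (Z_anti (singleton_subset_iff.2 hx.1) hc)
  have h0 : r ≠ 0 := fun h => h3 x₀ hx.1 (by simpa [h] using hr)
  have h5 := sub_mem (Z_anti (inter_subset_left (t := K')) hc)
    (Z_anti (inter_subset_right (s := K)) (Submodule.smul_mem _ r hc'))
  obtain ⟨e, he, e1, e2⟩ := mv_glue hK.isClosed hK'.isClosed hc (Submodule.smul_mem _ r hc')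
    ((good_mfd hY (hK.inter hK')).2 _ h5 fun x h => (null_iff hY h1 h5 hx h).1 hr)
  exact ⟨e, he, fun y hy h => hy.elim
    (fun hy => h3 y hy ((congr_B (B_anti (singleton_subset_iff.2 hy) e1)).2 h))
    fun hy => h4 y hy ((Submodule.smul_mem_iff _ h0).1
      ((congr_B (B_anti (singleton_subset_iff.2 hy) e2)).1 h))⟩

variable {A : Type*} [NormedAddCommGroup A] [NormedSpace ℝ A] [ProperSpace A]
  {M X : Type*} [TopologicalSpace M] [TopologicalSpace X] [T2Space M] [T2Space X] [Nonempty M]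
  [Nonempty X] [CompactSpace M] {e₁ e₂ : A → M} {f₁ f₂ : X → M} {n : ℕ}

lemma half_fund (H : Half e₁ e₂ f₁ f₂) {μ : C F M} (hμ : μ ∈ Z F univ ∅ n)
    (h0 : ∀ x, μ ∉ B F univ {x}ᶜ n) : ∃ c ∈ Z F univ (f₁ ⁻¹' (e₁ '' ball 0 (1 / 2))ᶜ)ᶜ n,
      ∀ x ∈ f₁ ⁻¹' (e₁ '' ball 0 (1 / 2))ᶜ, c ∉ B F univ {x}ᶜ n := by
  have hK := H.cpt
  obtain ⟨φ, rfl, h1, -⟩ := H.chart
  have hs : φ ⁻¹' (e₁ '' ball 0 (1 / 2))ᶜ ⊆ φ.source := h1 ▸ preimage_mono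
    (compl_subset_compl.2 (singleton_subset_iff.2 ⟨0, by simp, rfl⟩))
  obtain ⟨c, hc, h2⟩ := chart_surj φ hs (hK.image H.cont).isClosed
    (Z_mono le_rfl (empty_subset _) hμ)
  exact ⟨c, Z_mono (subset_univ _) inter_subset_right hc, fun x hx h => h0 (φ x) ((congr_B (B_anti
    (singleton_subset_iff.2 (mem_image_of_mem φ hx)) h2)).2 ((chart_pt φ hx (hs hx) hc).1 h))⟩

lemma half_inter (H : Half e₁ e₂ f₁ f₂) (H' : Half e₂ e₁ f₂ f₁) (hA : 1 < Module.rank ℝ A) :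
    IsConnected (f₁ ⁻¹' (e₁ '' ball 0 (1 / 2))ᶜ ∩ f₂ ⁻¹' (e₂ '' ball 0 (1 / 2))ᶜ) := by
  obtain ⟨φ, rfl, h1, h2⟩ := H.chart
  have h3 : e₁ '' sphere 0 (1 / 2) ⊆ φ.target := by
    rintro _ ⟨v, hv, rfl⟩
    rw [h2]
    intro h
    rw [H.emb.injective h] at hv
    simp at hv
  convert ((isConnected_sphere hA 0 (by norm_num : (0 : ℝ) ≤ 1 / 2)).image e₁
    H.emb.continuous.continuousOn).image _ (φ.continuousOn_symm.mono h3) using 1
  rw [φ.symm_image_eq_source_inter_preimage h3, h1]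
  ext x
  refine ⟨fun ⟨a, b⟩ => ⟨fun h => a ⟨0, by simp, h.symm⟩, ?_⟩, ?_⟩
  · have b0 : f₂ x ≠ e₂ 0 := fun h => b ⟨0, by simp, h.symm⟩
    have b1 := H.disc x b0
    obtain ⟨u, hu, t, t0, t1, b2, b3⟩ := col_ne H'.emb b0 fun h => a ⟨0, by simp, by rw [b1, h]⟩
    have b4 : ¬ t < 1 / 2 := fun h => b ⟨t • u, by simpa [norm_smul, hu, abs_of_pos t0] using h, b2.symm⟩
    have b5 : ¬ 1 - t < 1 / 2 := fun h => a ⟨(1 - t) • u, by
      simpa [norm_smul, hu, abs_of_pos (sub_pos.2 t1)] using h, by rw [b1, b3]⟩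
    exact ⟨(1 - t) • u, by
      rw [mem_sphere_zero_iff_norm, norm_smul, hu, Real.norm_of_nonneg (by linarith)]
      linarith, by rw [b1, b3]⟩
  · rintro ⟨a, v, hv, b⟩
    rw [mem_sphere_zero_iff_norm] at hv
    refine ⟨fun ⟨w, hw, h⟩ => ?_, fun ⟨w, hw, h⟩ => ?_⟩
    · rw [H.emb.injective (h.trans b.symm), mem_ball_zero_iff] at hw
      linarith
    · rw [H'.disc x a, ← b, col_apply H.emb] at h
      rw [H'.emb.injective h, mem_ball_zero_iff, MP_c77dc5_gt.flip, hv, norm_smul, hv] at hw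
      norm_num at hw

theorem exists_fund_sum (hX : LocEuc ι X) (H : Half e₁ e₂ f₁ f₂) (H' : Half e₂ e₁ f₂ f₁)
    (hA : 1 < Module.rank ℝ A) {μ : C F M} (hμ : μ ∈ Z F univ ∅ (Fintype.card ι))
    (h0 : ∀ x, μ ∉ B F univ {x}ᶜ (Fintype.card ι)) :
    ∃ ν : C F X, ν ∈ Z F univ ∅ (Fintype.card ι) ∧ ∀ x, ν ∉ B F univ {x}ᶜ (Fintype.card ι) := by
  obtain ⟨c, h1, h2⟩ := half_fund H hμ h0
  obtain ⟨c', h3, h4⟩ := half_fund H' hμ h0
  have h5 := half_inter H H' hA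
  obtain ⟨e, h6, h7⟩ := glue_fund hX H.cpt H'.cpt h5.2 h5.1 h1 h3 h2 h4
  have h8 : f₁ ⁻¹' (e₁ '' ball 0 (1 / 2))ᶜ ∪ f₂ ⁻¹' (e₂ '' ball 0 (1 / 2))ᶜ = univ :=
    eq_univ_of_forall fun x => by
      by_contra h
      simp only [mem_union, mem_preimage, mem_compl_iff, not_or, not_not] at h
      exact (H.cov x).elim (fun a => H'.far H a h.2 h.1) fun a => H.far H' a h.1 h.2
  rw [h8] at h6 h7
  exact ⟨e, compl_univ ▸ h6, fun x => h7 x trivial⟩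

/-- A cycle of low degree lifts to the first half. -/
lemma half_cycle (hM : LocEuc ι M) (H : Half e₁ e₂ f₁ f₂) {k : ℕ} (hk : k < Fintype.card ι)
    {z : C F M} (hz : z ∈ Z F univ ∅ k) :
    ∃ z₁ ∈ Z F (f₁ ⁻¹' {e₁ 0}ᶜ) ∅ k, z - map f₁ z₁ ∈ B F univ ∅ k := by
  obtain ⟨w, hw, hv⟩ := mem_B (loc_low hM (e₁ 0) hk (Z_mono le_rfl (empty_subset _) hz))
  obtain ⟨φ, rfl, h1, h2⟩ := H.chart
  rw [← h2] at hv
  refine ⟨map φ.symm (z - D w), h1 ▸ map_Z φ.continuousOn_symm (empty_subset _) φ.mapsTo_symm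
    (mapsTo_empty _ _) ⟨hv, by simpa using hz.2⟩, ?_⟩
  rw [map_map φ.continuousOn_symm hv, map_self (g := φ ∘ φ.symm) (fun x hx => φ.right_inv hx) hv]
  simpa using D_mem_B hw

/-- Cycles of positive degree in the second half collapse to boundaries. -/
lemma half_null (H : Half e₁ e₂ f₁ f₂) (H' : Half e₂ e₁ f₂ f₁) {k : ℕ} {y : C F X}
    (hy : y ∈ Z F (f₂ ⁻¹' {e₂ 0}ᶜ) ∅ (k + 1)) : map f₁ y ∈ B F univ ∅ (k + 1) := by
  have h1 : ContinuousOn (col e₂ ∘ f₂) (f₂ ⁻¹' {e₂ 0}ᶜ) :=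
    (col_cont H'.emb).comp H'.cont.continuousOn fun _ h => h
  obtain ⟨h, hh⟩ := contr_star (R := F) (mem_univ (0 : A)) (starConvex_univ 0)
  have h2 := map_Z h1 (empty_subset _) (mapsTo_univ _ _) (mapsTo_empty _ ∅) hy
  rw [map_congr (g' := e₁ ∘ col e₂ ∘ f₂) (fun x hx => H.disc x hx) hy.1, ← map_map h1 hy.1]
  exact map_B H.emb.continuous.continuousOn (empty_subset _) (mapsTo_univ _ _) (mapsTo_empty _ ∅)
    (Submodule.mem_sup_left (hh.bd h2.1 (Z_D_eq h2)))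

end Pool.Agent.Lib.MP_99fcc5_gt
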