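import Pool.Agent.Lib.MP_99fcc5_gt.H85Lab
import Pool.Agent.Lib.MP_99fcc5_gt.GL

/-! The product of the two pulled back classes has weight four. -/

set_option linter.unusedSectionVars false

namespace Pool.Agent.Lib.MP_99fcc5_gt

open Finsupp Set Topology unitInterval Pool.Agent.Shared.Sing Pool.Agent.Lib.MP_c77dc5_gt

lemma half_lift {A E B M M' X : Type*} [NormedAddCommGroup A] [NormedSpace ℝ A] [ProperSpace A]
    [TopologicalSpace E] [TopologicalSpace B] [TopologicalSpace M] [TopologicalSpace M']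
    [TopologicalSpace X] [T2Space M] [T2Space M'] {p : E → B} (hp : IsCoveringMap p)
    (hs : Function.Surjective p) {c : M → B} (hc : Continuous c) {e₁ : A → M} {e₂ : A → M'}
    {f₁ : X → M} {f₂ : X → M'} (H : Half e₁ e₂ f₁ f₂) (H' : Half e₂ e₁ f₂ f₁) :
    ∃ μ : X → E, (∀ x, p (μ x) = c (f₁ x)) ∧ ContinuousOn μ (f₂ ⁻¹' {e₂ 0}ᶜ) := by
  obtain ⟨a, ha⟩ := hs (c (e₁ 0))
  obtain ⟨F, ⟨-, hF⟩, -⟩ := hp.existsUnique_continuousMap_lifts
    ⟨c ∘ e₁, hc.comp H.emb.continuous⟩ 0 a ha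
  obtain ⟨μ, h1, h2⟩ := glue hs (fun x => c (f₁ x)) (A := fun _ : Unit => f₂ ⁻¹' {e₂ 0}ᶜ)
    (fun _ => isOpen_compl_singleton.preimage H'.cont) (g := fun _ x => F (col e₂ (f₂ x)))
    (fun _ x h => (congrFun hF _).trans (congrArg c (H.disc x h).symm))
    (fun _ => F.continuous.comp_continuousOn ((col_cont H'.emb).comp H'.cont.continuousOn
      fun _ h => h)) fun _ _ _ _ _ => rfl
  exact ⟨μ, h1, by simpa [iUnion_const] using h2⟩

/-- Charts for the bundle glued from two pulled back coverings. -/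
lemma exists_cech {E B G P X : Type*} [TopologicalSpace E] [TopologicalSpace B] [Group G] [Group P]
    [MulAction G E] [ContinuousConstSMul G E] {p : E → B} (cv : Cov G p) (ι : Bool → G →* P)
    [TopologicalSpace X] {V₁ V₂ : Set X} (o1 : IsOpen V₁) (o2 : IsOpen V₂)
    (hV : ∀ x, x ∈ V₁ ∨ x ∈ V₂) {g : Bool → X → B} (hg : ∀ b, Continuous (g b)) {μ : Bool → X → E}
    (l : ∀ b x, p (μ b x) = g b x) (m1 : ContinuousOn (μ false) V₂) (m2 : ContinuousOn (μ true) V₁) :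
    ∃ (Ω : X × Bool → Set X) (s : Bool → X × Bool → X → E), (∀ i, IsOpen (Ω i)) ∧
      (∀ x, ∃ i, x ∈ Ω i) ∧ (∀ b i x, p (s b i x) = g b x) ∧ (∀ b i, ContinuousOn (s b i) (Ω i)) ∧
      (∀ b i, b ≠ i.2 → s b i = μ b) ∧ ∀ i k, ∀ x ∈ Ω i, x ∈ Ω k → ∀ᶠ y in 𝓝 x,
        ι k.2 (quo G (μ k.2 y) (s k.2 k y)) * (ι i.2 (quo G (μ i.2 y) (s i.2 i y)))⁻¹ =
        ι k.2 (quo G (μ k.2 x) (s k.2 k x)) * (ι i.2 (quo G (μ i.2 x) (s i.2 i x)))⁻¹ := by
  choose s hs O a1 a2 a3 using fun b => cv.exists_lift (hg b)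
  let Ω : X × Bool → Set X := fun i => O i.2 i.1 ∩ cond i.2 V₂ V₁
  have hΩ : ∀ i, IsOpen (Ω i) := by
    rintro ⟨x, _ | _⟩
    exacts [(a1 _ x).inter o1, (a1 _ x).inter o2]
  have e : ∀ b x y, p (μ b y) = p (s b x y) := fun b x y => (l b y).trans (hs b x y).symm
  have a4 : ∀ i, ∀ x ∈ Ω i, ContinuousAt (s i.2 i.1) x := fun i x hx =>
    (a3 _ _).continuousAt ((a1 _ _).mem_nhds hx.1)
  have mix : ∀ i, ∀ x ∈ Ω i, x ∈ V₁ → x ∈ V₂ → ∀ᶠ y in 𝓝 x,
      quo G (μ i.2 y) (s i.2 i.1 y) = quo G (μ i.2 x) (s i.2 i.1 x) := fun i x hx v1 v2 =>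
    cv.quo_ev (by
      obtain ⟨a, _ | _⟩ := i
      exacts [m1.continuousAt (o2.mem_nhds v2), m2.continuousAt (o1.mem_nhds v1)]) (a4 i x hx)
      (e _ _ x) (.of_forall (e _ _))
  refine ⟨Ω, fun b i => if b = i.2 then s b i.1 else μ b, hΩ, fun x => (hV x).elim
    (fun h => ⟨(x, false), a2 _ x, h⟩) fun h => ⟨(x, true), a2 _ x, h⟩, fun b i x => ?_, ?_,
    fun b i h => if_neg h, fun i k x hi hk => ?_⟩
  · dsimp only
    split_ifs
    exacts [hs _ _ _, l _ _]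
  · rintro (_ | _) ⟨a, _ | _⟩
    exacts [(a3 _ _).mono inter_subset_left, m1.mono inter_subset_right,
      m2.mono inter_subset_right, (a3 _ _).mono inter_subset_left]
  simp only [if_true]
  by_cases h : i.2 = k.2
  · obtain ⟨a, b⟩ := i
    obtain ⟨a', b'⟩ := k
    obtain rfl : b = b' := h
    filter_upwards [cv.quo_ev (a4 _ x hi) (a4 _ x hk) ((hs _ _ _).trans (hs _ _ _).symm)
      (.of_forall fun y => (hs _ _ _).trans (hs _ _ _).symm)] with y hy
    simp only [← map_inv, ← map_mul, cv.quo_div (e _ _ _) (e _ _ _), hy]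
  · have : x ∈ V₁ ∧ x ∈ V₂ := by
      obtain ⟨a, _ | _⟩ := i <;> obtain ⟨a', _ | _⟩ := k
      exacts [(h rfl).elim, ⟨hi.2, hk.2⟩, ⟨hk.2, hi.2⟩, (h rfl).elim]
    filter_upwards [mix i x hi this.1 this.2, mix k x hk this.1 this.2] with y h h'
    rw [h, h']

lemma exists_index {N : Type*} [TopologicalSpace N] [T2Space N] [CompactSpace N] {U : Fin 4 → Set N}
    (hU : ∀ i, IsOpen (U i)) {K : Set N} (hK : IsCompact K) (h : K ⊆ ⋃ i, U i) :
    ∃ (W : Finset (Option (Fin 4)) → Set N) (m : N → Fin 4), (∀ S, IsOpen (W S)) ∧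
      (∀ x, ∃ S, x ∈ W S) ∧ ∀ S, ∀ x ∈ W S, x ∈ K → W S ⊆ U (m x) := by
  classical
  obtain ⟨W, w1, w2, w3, w4⟩ := exists_strata (O := fun a : Option (Fin 4) => a.elim Kᶜ U)
    (by rintro (_ | i); exacts [hK.isClosed.isOpen_compl, hU i]) fun x => (em (x ∈ K)).elim
      (fun hx => (mem_iUnion.1 (h hx)).elim fun i hi => ⟨some i, hi⟩) fun hx => ⟨none, hx⟩
  have key : ∀ x, ∃ j, ∀ S, S.Nonempty → x ∈ W S → x ∈ K → W S ⊆ U j := fun x => by
    obtain ⟨S, ⟨⟨a, ha⟩, h1⟩, h2⟩ := exists_minimalFor_of_wellFoundedLT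
      (fun S => S.Nonempty ∧ x ∈ W S) id (w3 x)
    refine ⟨a.getD 0, fun S' h3 h4 h5 => ?_⟩
    obtain _ | a := a
    · exact (w2 S _ ha h1 h5).elim
    exact w2 S' _ ((w4 S S' x h1 h4).elim id (h2 ⟨h3, h4⟩) ha)
  choose m hm using key
  exact ⟨fun S => {x | S.Nonempty ∧ x ∈ W S}, m, fun S => by
    by_cases h : S.Nonempty <;> simp [h, w1], w3, fun S x hx h y hy => hm x S hx.1 hx.2 h hy.2⟩

theorem weight_four {A B M X : Type*} {E : Type} [NormedAddCommGroup A] [NormedSpace ℝ A]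
    [ProperSpace A]
    [TopologicalSpace E] [TopologicalSpace B] [TopologicalSpace M] [TopologicalSpace X]
    [Nonempty B] [Nonempty X] [T2Space M] [T2Space X] [CompactSpace X] [ContractibleSpace E]
    [LocallyPathConnectedSpace B] {p : E → B} (hp : IsCoveringMap p) (hs : Function.Surjective p)
    {c : M → B} (hc : Continuous c) {e₁ e₂ : A → M} {f₁ f₂ : X → M} (H : Half e₁ e₂ f₁ f₂)
    (H' : Half e₂ e₁ f₂ f₁) {φ : C ℚ B →ₗ[ℚ] ℚ} (hφ : Shared.Sing.Coc univ 2 φ)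
    {U : Fin 4 → Set (X × X)} (hU : ∀ i, IsOpen (U i))
    (hσ : ∀ i, ∃ s : C(U i, C(I, X)), ∀ x, s x 0 = x.1.1 ∧ s x 1 = x.1.2)
    {z : C ℚ (X × X)} (hz : z ∈ Z ℚ (⋃ i, U i) ∅ 4) :
    cup 2 (φ ∘ₗ map fun q : X × X => c (f₁ q.1)) (φ ∘ₗ map fun q : X × X => c (f₂ q.2)) z = 0 := by
  classical
  have cv := cov_deck hp hs
  obtain ⟨α, α1, α2, α3, α4⟩ := hopf cv hφ
  obtain ⟨P, _, ι, a, Φ, -, -, a3, a4, a5, a6⟩ := group_lemma α α1 (fun l _ => α2 l) α3
  obtain ⟨μ₁, l1, m1⟩ := half_lift hp hs hc H H'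
  obtain ⟨μ₂, l2, m2⟩ := half_lift hp hs hc H' H
  let g : Bool → X → B := fun b x => c (cond b (f₂ x) (f₁ x))
  let μ : Bool → X → E := fun b => cond b μ₂ μ₁
  have hg : ∀ b, Continuous (g b) := by
    rintro (_ | _)
    exacts [hc.comp H.cont, hc.comp H'.cont]
  have l : ∀ b x, p (μ b x) = g b x := by
    rintro (_ | _)
    exacts [l1, l2]
  obtain ⟨Ω, s, o1, o2, o3, o4, o5, o6⟩ := exists_cech cv ι (isOpen_compl_singleton.preimage H.cont)
    (isOpen_compl_singleton.preimage H'.cont) H.cov hg l m1 m2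
  let κ (i : X × Bool) (x : X) : P := ι i.2 (quo _ (μ i.2 x) (s i.2 i x))
  choose x x1 x2 x3 using fun b => α4 X _ (g b) (μ b) Ω (s b) (hg b) (l b) (o3 b) (o4 b)
  have x4 : ∀ b i, ∀ c ∈ In ℚ (Ω i) 3, x b c = lc (a b) (lab (κ i) c) := fun b i c hc =>
    (x3 b i c hc).trans (map_eq (F := lc α ∘ₗ lab _) (G := lc (a b) ∘ₗ lab _) (fun t ht => by
      simp only [LinearMap.comp_apply, lab_single, linearCombination_single, one_smul]
      rw [show κ i ∘ t.f = ι i.2 ∘ (fun x => quo _ (μ i.2 x) (s i.2 i x)) ∘ t.f from rfl,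
        ← List.map_map (g := ι i.2), a3 _ _ _ (by simp [ht.1])]
      split_ifs with h
      · rw [h]
      · refine α3 _ ?_
        simp [ht.1, std, List.range_succ, o5 b i h, cv.quo_eq (one_smul _ _)]) hc)
  have pr : ∀ b (r : X × X → X), Continuous r → Shared.Sing.Coc univ 2 (x b ∘ₗ map r) ∧
      Dies univ 2 (φ ∘ₗ map (g b ∘ r) - x b ∘ₗ map r) := fun b r hr => by
    obtain ⟨θ, h⟩ := x2 b
    refine ⟨(x1 b).comp_map hr.continuousOn (mapsTo_univ _ _), θ ∘ₗ map r, fun c hc => ?_⟩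
    simpa [map_map hr.continuousOn hc, map_D hr.continuousOn hc] using
      h _ (map_In hr.continuousOn (mapsTo_univ _ _) hc)
  obtain ⟨y1, y2⟩ := pr false _ continuous_fst
  obtain ⟨y3, y4⟩ := pr true _ continuous_snd
  have hz' : z ∈ Z ℚ univ ∅ 4 := Z_mono (subset_univ _) le_rfl hz
  obtain ⟨T, hT⟩ := exists_transport Ω o1 o2 κ o6
  choose sg hσ using hσ
  let γ (i : Fin 4) (y : X × X) : C(I, X) := if h : y ∈ U i then sg i ⟨y, h⟩ else .const _ y.1
  have g0 : ∀ i, ∀ y ∈ U i, γ i y 0 = y.1 ∧ γ i y 1 = y.2 := fun i y h => by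
    simpa [γ, h] using hσ i ⟨y, h⟩
  have g1 : ∀ i, ContinuousOn (γ i) (U i) := fun i => continuousOn_iff_continuous_domRestrict.2
    ((sg i).continuous.congr fun x => by simp [γ])
  obtain ⟨K, k1, k2, k3⟩ := exists_compact hz.1
  obtain ⟨W, m, w1, w2, w3⟩ := exists_index hU k1 k2
  let O (i : (X × Bool) × X × Bool) : Set (X × X) := Ω i.1 ×ˢ Ω i.2
  let L₀ (i : (X × Bool) × X × Bool) (y : X × X) : (P × P) ⊕ P := .inl (κ i.1 y.1, κ i.2 y.2)
  let L₁ (i : (X × Bool) × X × Bool) (y : X × X) : (P × P) ⊕ P :=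
    .inr (κ i.1 y.1 * (T (γ (m y) y))⁻¹ * (κ i.2 y.2)⁻¹)
  let Ψ : Ch ℚ ((P × P) ⊕ P) →ₗ[ℚ] ℚ := lc fun l => if l.length = 5 then Φ l else 0
  have Ψ1 : ∀ u, Ψ (bd u) = 0 := fun u => map_eq (F := Ψ ∘ₗ bd) (G := 0) (fun l _ => by
    rw [LinearMap.comp_apply, bd_single]
    by_cases h : l.length = 6
    · exact (map_eq (fun l' hl' => by simp [Ψ, show l'.length = 5 by have := hl'.1; omega])
        (bdL_mem l)).trans (a5 l h)
    · exact map_eq (G := 0) (fun l' hl' => by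
        simp [Ψ, show l'.length ≠ 5 by have := hl'.1; omega]) (bdL_mem l)) (mem_top u)
  have Ψ2 : ∀ (q : P × P) u, Ψ (lmap (Sum.map (q * ·) fun d => q.1 * d * q.2⁻¹) u) = Ψ u :=
    fun q u => map_eq (F := Ψ ∘ₗ lmap _) (fun l _ => by simp [Ψ, a4]) (mem_top u)
  obtain ⟨Θ, hΘ⟩ := glue_co O (fun i => Ψ ∘ₗ gz (fun t => cone (L₀ i (v0 t)))
    (lc (retL (avc ℚ)) ∘ₗ lab (L₁ i) - lab (L₀ i))) fun i k S hS h0 n u hu => by
      obtain ⟨q, hq⟩ := exists_cst (S := S) (f := fun y => (κ i.1 y.1, κ i.2 y.2))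
        (g := fun y => (κ k.1 y.1, κ k.2 y.2)) fun y hy y' hy' => cst_of_ev
          (f := fun y => (κ k.1 y.1, κ k.2 y.2) * (κ i.1 y.1, κ i.2 y.2)⁻¹) h0 (fun y hy => by
            filter_upwards [continuousAt_fst.eventually (o6 _ _ _ (hS hy).1.1 (hS hy).2.1),
              continuousAt_snd.eventually (o6 _ _ _ (hS hy).1.2 (hS hy).2.2)] with y' h h'
              using Prod.ext h h') hy hy'
      have q0 : ∀ y ∈ S, L₀ k y = Sum.map (q * ·) (fun d => q.1 * d * q.2⁻¹) (L₀ i y) :=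
        fun y hy => congrArg Sum.inl (hq y hy)
      have q1 : ∀ y ∈ S, L₁ k y = Sum.map (q * ·) (fun d => q.1 * d * q.2⁻¹) (L₁ i y) :=
        fun y hy => by
          simp [L₁, show κ k.1 y.1 = _ from congrArg Prod.fst (hq y hy),
            show κ k.2 y.2 = _ from congrArg Prod.snd (hq y hy), mul_assoc]
      rw [LinearMap.comp_apply, ← Ψ2 q]
      refine congrArg Ψ (gz_nat _ (fun t t0 ht u => by
        rw [lmap_cone, ← q0 (v0 t) (ht (e0_mem t0))]) (fun n u hu => ?_) hu)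
      simp only [LinearMap.sub_apply, LinearMap.comp_apply, map_sub]
      rw [lab_congr _ q0 hu, lab_congr _ q1 hu, lc_lmap, map_lc]
      simp only [lmap_retL (avc_nat _)]
  obtain ⟨r, hr⟩ := (Shared.Sing.small
    (U := fun i : ((X × Bool) × X × Bool) × Finset (Option (Fin 4)) => O i.1 ∩ W i.2)
    (fun i => ((o1 _).prod (o1 _)).inter (w1 _)) (In_mono (fun y _ => by
      obtain ⟨⟨i, hi⟩, ⟨k, hk⟩, S, hS⟩ := And.intro (o2 y.1) (And.intro (o2 y.2) (w2 y))
      exact mem_iUnion.2 ⟨((i, k), S), ⟨hi, hk⟩, hS⟩) _ hz'.1)).exists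
  have key : cup 2 (x false ∘ₗ map Prod.fst) (x true ∘ₗ map Prod.snd) ((sd ^ r) z) =
      -Θ (D ((sd ^ r) z)) := by
    simp only [In, ← supported_iUnion] at hr
    refine map_eq (G := -Θ ∘ₗ D) (S := _ ∩ _) (fun t ht => ?_)
      fun t ht => ⟨hr ht, sd_In k3 r ht⟩
    obtain ⟨⟨i, S⟩, t1, t2⟩ := mem_iUnion.1 ht.1
    have t3 : single t (1 : ℚ) ∈ In ℚ (O i) 5 := single_mem ⟨t1, t2.mono_right inter_subset_left⟩
    have h1 := congrArg Ψ (gz_spec (h := fun t => cone (L₀ i (v0 t))) (A := lc (retL (avc ℚ)) ∘ₗ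
      lab (L₁ i) - lab (L₀ i)) bd (fun t => bd_cone _) (fun n u _ => by
        simp [lab_D, bd_lc_retL avc_spec]) (fun u hu => by simp [lab_zero _ hu, retL, zig_nil]) t3)
    have h2 : ¬ ((std t.n).map (L₁ i ∘ t.f)).Nodup := fun h => by
      have h3 : ((std t.n).map (m ∘ t.f)).Nodup := (List.Nodup.of_map _ h).map_on
        fun v hv v' hv' e => List.inj_on_of_nodup_map h hv hv' (congrArg Sum.inr (by
          have h4 := fun y (hy : y ∈ t.f '' Δ t.n) => t2.image_subset hy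
          have h5 := fun y hy => w3 S _ (t2 (std_mem v hv)).2 (ht.2.2 (std_mem v hv)) (h4 y hy).2
          have := cst_of_ev (f := fun y => κ i.2 y.2 * T (γ (m (t.f v)) y) * (κ i.1 y.1)⁻¹)
            ((convex_Δ _).isPreconnected.image _ t.cont) (fun y hy => by
              have h6 := (hU _).mem_nhds (h5 y hy)
              filter_upwards [((g1 _).continuousAt h6).eventually (hT _ i.1 i.2
                (by rw [(g0 _ y (h5 y hy)).1]; exact (h4 y hy).1.1)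
                (by rw [(g0 _ y (h5 y hy)).2]; exact (h4 y hy).1.2)), h6] with y' h7 h8
              simpa only [g0 _ y' h8, g0 _ y (h5 y hy)] using h7)
            ⟨v, std_mem v hv, rfl⟩ ⟨v', std_mem v' hv', rfl⟩
          simpa [show m (t.f v') = m (t.f v) from e.symm, mul_assoc] using congrArg (·⁻¹) this))
      simpa [t1] using h3.length_le_card
    have h3 : ∀ (b) (j : X × Bool) (r : X × X → X), Continuous r → MapsTo r (O i) (Ω j) →
        ∀ u ∈ In ℚ (O i) 3, (x b ∘ₗ map r) u = (lc (a b) ∘ₗ lab (κ j ∘ r)) u := fun b j r h h' u hu => by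
      rw [LinearMap.comp_apply, x4 b j _ (map_In h.continuousOn h' hu), lab_map _ h.continuousOn hu,
        LinearMap.comp_apply]
    rw [map_add, Ψ1, zero_add, LinearMap.sub_apply, LinearMap.comp_apply, lab_single,
      linearCombination_single, alt_dup h2, smul_zero, zero_sub, map_neg, lab_single] at h1
    rw [cup, LinearMap.comp_apply, cap_congr (h3 _ i.1 _ continuous_fst fun _ h => h.1) t3,
      h3 _ i.2 _ continuous_snd (fun _ h => h.2) _ (cap_In 2 _ t3), ← LinearMap.comp_apply, ← cup,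
      cup_lab _ _ _ _ _ (by rw [t1]; omega), LinearMap.neg_apply, LinearMap.comp_apply,
      hΘ i _ _ (D_In t3), LinearMap.comp_apply, h1, neg_neg]
    have h4 := a6 ((std t.n).map fun v => (κ i.1 (t.f v).1, κ i.2 (t.f v).2)) (by simp [t1])
    simp only [← List.map_take, ← List.map_drop, List.map_map] at h4
    simp only [Ψ, linearCombination_single, one_smul, List.length_map, length_std, t1, if_true]
    rw [t1] at h4
    exact h4.symm
  have e1 := ((hφ.comp_map ((hg true).comp continuous_snd).continuousOn (mapsTo_univ _ _)).apply_B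
    (y2.cap_B (k := 2) hz'))
  have e2 := y4.apply_Z (cap_Z (k := 2) y1 hz')
  have e3 := (y1.cup y3).apply_B (sub_sd hz' r)
  rw [map_sub, key, D_sd, Z_D_eq hz', map_zero, map_zero, neg_zero, sub_zero] at e3
  rw [cap_sub, map_sub, sub_eq_zero] at e1
  rw [LinearMap.sub_apply, sub_eq_zero] at e2
  exact e1.trans (e2.trans e3)

end Pool.Agent.Lib.MP_99fcc5_gt
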