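import Pool.Agent.Lib.MP_99fcc5_gt.H95Fund
import Pool.Agent.Lib.MP_99fcc5_gt.W4

/-! A motion planner on the connected sum needs at least seven domains. -/

set_option linter.unusedSectionVars false

namespace Pool.Agent.Lib.MP_99fcc5_gt

open Set Topology unitInterval Pool.Agent.Shared.Sing Pool.Agent.Shared.SingEZ
  Pool.Agent.Lib.MP_c77dc5_gt

variable {F : Type} [Field F] {X : Type*} [TopologicalSpace X] [Nonempty X]

/-- The zero divisor of a cochain. -/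
noncomputable def zd (ψ : C F X →ₗ[F] F) : C F (X × X) →ₗ[F] F :=
  ψ ∘ₗ map Prod.fst - ψ ∘ₗ map Prod.snd

variable {ψ : C F X →ₗ[F] F} {k : ℕ}

lemma zd_coc (h : Shared.Sing.Coc univ k ψ) (U : Set (X × X)) : Shared.Sing.Coc U k (zd ψ) :=
  (h.comp_map continuousOn_fst (mapsTo_univ _ _)).sub (h.comp_map continuousOn_snd (mapsTo_univ _ _))

lemma zd_sec (h : Shared.Sing.Coc univ k ψ) {U : Set (X × X)}
    (hs : ∃ s : C(U, C(I, X)), ∀ x, s x 0 = x.1.1 ∧ s x 1 = x.1.2) :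
    ∀ c ∈ Z F U ∅ k, zd ψ c = 0 := fun c hc => by
  classical
  obtain ⟨s, hs⟩ := hs
  let γ (x : X × X) : C(I, X) := if h : x ∈ U then s ⟨x, h⟩ else .const _ x.1
  have g0 : ∀ x ∈ U, γ x 0 = x.1 ∧ γ x 1 = x.2 := fun x h => by simpa [γ, h] using hs ⟨x, h⟩
  have g1 : ContinuousOn γ U := continuousOn_iff_continuous_domRestrict.2
    (s.continuous.congr fun x => by simp [γ])
  have := htpy_B (H := fun q : (X × X) × ℝ => γ q.1 (projIcc 0 1 zero_le_one q.2))
    (continuous_eval.comp_continuousOn ((g1.comp continuousOn_fst fun _ h => h.1).prodMk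
      ((continuous_projIcc (h := zero_le_one)).comp continuous_snd).continuousOn)) (empty_subset _) (mapsTo_univ _ _)
    (A' := ∅) (fun _ h => h.1.elim) hc
  rw [map_congr (g' := Prod.snd) (fun x hx => by simpa using (g0 x hx).2) hc.1,
    map_congr (g := fun y => γ y _) (g' := Prod.fst) (fun x hx => by simpa using (g0 x hx).1) hc.1]
    at this
  simpa [zd] using h.apply_B (neg_mem this)

lemma coc_const (h : Shared.Sing.Coc univ (k + 1) ψ) (x : X) {y : C F X}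
    (hy : y ∈ Z F univ ∅ (k + 1)) : ψ (map (fun _ => x) y) = 0 := by
  obtain ⟨g, hg⟩ := exists_contr (R := F) (H := fun _ : X × ℝ => x) (A := {x}) continuousOn_const
    (fun _ _ => rfl) (mem_singleton x) (fun y hy => hy.symm) fun _ _ => rfl
  have h2 := map_Z (O' := {x}) continuousOn_const (empty_subset _) (fun _ _ => mem_singleton x)
    (mapsTo_empty _ ∅) hy
  exact h.apply_B (B_mono (subset_univ _) le_rfl
    (Submodule.mem_sup_left (Contr.bd hg h2.1 (Z_D_eq h2))))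

lemma zd_left (h : Shared.Sing.Coc univ (k + 1) ψ) {e y : C F X} (he : e ∈ In F univ 1)
    (hy : y ∈ Z F univ ∅ (k + 1)) : zd ψ (cross e y) = -(eps e * ψ y) :=
  map_eq (F := zd ψ ∘ₗ cross.flip y) (G := -eps.smulRight (ψ y)) (fun s hs => by
    rw [LinearMap.comp_apply, LinearMap.flip_apply, single_eq_pt s hs.1, cross_pt_left _ hy.1]
    simp only [zd, LinearMap.sub_apply, LinearMap.comp_apply, map_map (Continuous.prodMk_right
      _).continuousOn hy.1]
    rw [map_self (g := Prod.snd ∘ _) (fun _ _ => rfl) hy.1,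
      show ψ (map (Prod.fst ∘ fun y => (s.f (Pi.single 0 1), y)) y) = 0 from coc_const h _ hy]
    simp [pt]) he

lemma zd_right (h : Shared.Sing.Coc univ (k + 1) ψ) {e y : C F X} (he : e ∈ In F univ 1)
    (hy : y ∈ Z F univ ∅ (k + 1)) : zd ψ (cross y e) = eps e * ψ y :=
  map_eq (F := zd ψ ∘ₗ cross y) (G := eps.smulRight (ψ y)) (fun s hs => by
    rw [LinearMap.comp_apply, single_eq_pt s hs.1, cross_pt_right hy.1]
    simp only [zd, LinearMap.sub_apply, LinearMap.comp_apply, map_map (Continuous.prodMk_left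
      _).continuousOn hy.1]
    rw [map_self (g := Prod.fst ∘ _) (fun _ _ => rfl) hy.1,
      show ψ (map (Prod.snd ∘ fun y => (y, s.f (Pi.single 0 1))) y) = 0 from coc_const h _ hy]
    simp [pt]) he

/-- The product of a class of weight four with two zero divisors. -/
theorem no_six {μ : C F X} {a b a' b' : C F X →ₗ[F] F} (hμ : μ ∈ Z F univ ∅ (2 + (k + 1)))
    (ha : Shared.Sing.Coc univ 2 a) (hb : Shared.Sing.Coc univ 2 b)
    (ha' : Shared.Sing.Coc univ (k + 1) a') (hb' : Shared.Sing.Coc univ (k + 1) b')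
    (h1 : a' (cap 2 a μ) = 1) (h2 : b' (cap 2 b μ) = 1) (h3 : a' (cap 2 b μ) = 0)
    {U U₁ U₂ : Set (X × X)} (o : IsOpen U) (o₁ : IsOpen U₁) (o₂ : IsOpen U₂)
    (hc : U ∪ (U₁ ∪ U₂) = univ)
    (hU : ∀ z ∈ Z F U ∅ 4, cup 2 (a ∘ₗ map Prod.fst) (b ∘ₗ map Prod.snd) z = 0)
    (s₁ : ∃ s : C(U₁, C(I, X)), ∀ x, s x 0 = x.1.1 ∧ s x 1 = x.1.2)
    (s₂ : ∃ s : C(U₂, C(I, X)), ∀ x, s x 0 = x.1.1 ∧ s x 1 = x.1.2) : False := by
  have x1 := cap_Z ha hμ
  have y1 := cap_Z hb hμ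
  have a1 := ha.comp_map (continuousOn_fst (β := X) (s := univ)) (mapsTo_univ _ _)
  have b1 := hb.comp_map (continuousOn_snd (α := X) (s := univ)) (mapsTo_univ _ _)
  obtain ⟨c, c1, c2⟩ := cap_shrink' o (o₁.union o₂) (p := 4) (k := k + 1 + (k + 1))
    (hc ▸ a1.cup b1) hU (c := cross μ μ) (by
      convert cross_Z hμ hμ using 2
      · simpa using hc
      · omega)
  obtain ⟨d, d1, d2⟩ := cap_shrink' o₁ o₂ (zd_coc ha' _) (zd_sec ha' s₁) c1
  rw [hc, ← cap_cap 2 2] at c2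
  have e1 := cap_fst_B ha hμ hμ
  have e2 := cap_snd_B hb x1 hμ
  rw [univ_prod_univ] at e1 e2
  have e3 := add_mem (cap_B (k := k + 1 + (k + 1)) b1 (by convert e1 using 2; omega)) e2
  have e4 : cross (cap 2 a μ) (cap 2 b μ) - c ∈ B F univ ∅ (k + 1 + (k + 1)) := by
    simpa [pow_mul] using sub_mem c2 e3
  have e5 := cap_fst_B (p := 0) ha' x1 y1
  have e6 := cap_snd_B (q := 0) ha' x1 y1
  rw [univ_prod_univ] at e5 e6
  have z := zd_coc hb' univ
  have f1 := z.apply_B (cap_B (zd_coc ha' _) e4)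
  have f2 := z.apply_B (B_mono (subset_univ _) le_rfl d2)
  have f3 := z.apply_B (zero_add (k + 1) ▸ e5)
  have f4 := z.apply_B e6
  rw [map_sub, zd_sec hb' s₂ d d1] at f2
  rw [map_sub, zd_left hb' (cap_In' a' x1.1) y1, eps_cap a' x1.1, h1, h2] at f3
  rw [map_sub, map_smul, zd_right hb' (cap_In' a' y1.1) x1, eps_cap a' y1.1, h3] at f4
  rw [map_sub, map_sub, zd.eq_1 a', cap_sub, map_sub, ← zd.eq_1 a'] at f1
  simp only [zero_mul, smul_zero, sub_zero] at f2 f4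
  exact one_ne_zero (α := F) (by linear_combination f3 - f4 - f1 - f2)

theorem seven_le {n : ℕ} (hn : 3 ≤ n) {M X B : Type*} {E : Type} [TopologicalSpace M] [TopologicalSpace X]
    [TopologicalSpace B] [TopologicalSpace E] [Nonempty X] [Nonempty B] [T2Space M] [CompactSpace M]
    [ConnectedSpace M] [ChartedSpace (EuclideanSpace ℝ (Fin n)) M] [ContractibleSpace E]
    [LocallyPathConnectedSpace B] {p : E → B} (hp : IsCoveringMap p) (hs : Function.Surjective p)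
    {c : M → B} (hc : Continuous c) {μ z : C ℚ M} (h1 : μ ∈ Z ℚ univ ∅ n) (h2 : μ ∉ Shared.Sing.B ℚ univ ∅ n)
    (h3 : z ∈ Z ℚ univ ∅ 2) (h4 : map c z ∉ Shared.Sing.B ℚ univ ∅ 2)
    {e₁ e₂ : EuclideanSpace ℝ (Fin n) → M} {f₁ f₂ : X → M} (H : Half e₁ e₂ f₁ f₂)
    (H' : Half e₂ e₁ f₂ f₁) {k : ℕ} {U : Fin k → Set (X × X)} (hU : ∀ i, IsOpen (U i))
    (hc' : ⋃ i, U i = univ) (hσ : ∀ i, ∃ s : C(U i, C(I, X)), ∀ x, s x 0 = x.1.1 ∧ s x 1 = x.1.2) :
    7 ≤ k := by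
  by_contra hk
  obtain ⟨m, rfl⟩ : ∃ m, n = 2 + (m + 1) := ⟨n - 3, by omega⟩
  have := H.t2 H'
  have := H.compact H'
  have hM : LocEuc (Fin (2 + (m + 1))) M := fun x => ⟨(chartAt (EuclideanSpace ℝ _) x).transHomeomorph
    (EuclideanSpace.equiv _ ℝ).toHomeomorph, mem_chart_source _ _⟩
  have hX := H.locEuc (n := 2 + (m + 1)) H'
  have e := Fintype.card_fin (2 + (m + 1))
  obtain ⟨ν, n1, n2⟩ := exists_fund_sum hX H H' (by
    rw [← Module.finrank_eq_rank, finrank_euclideanSpace_fin]; norm_cast; omega) (e.symm ▸ h1)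
    (fund_of_cycle hM (e.symm ▸ h1) (e.symm ▸ h2))
  obtain ⟨τ, hτ⟩ := exists_isThom hX n1 n2
  rw [e] at hτ
  obtain ⟨φ, p1, -, p2⟩ := exists_coc h4
  have key : ∀ {e₁ e₂ : EuclideanSpace ℝ (Fin (2 + (m + 1))) → M} {f₁ f₂ : X → M},
      Half e₁ e₂ f₁ f₂ → Half e₂ e₁ f₂ f₁ → ∃ a', Shared.Sing.Coc univ (m + 1) a' ∧
        a' (cap 2 (φ ∘ₗ map (c ∘ f₁)) ν) = 1 ∧ a' (cap 2 (φ ∘ₗ map (c ∘ f₂)) ν) = 0 := by
    intro e₁ e₂ f₁ f₂ H H'
    obtain ⟨z₁, z1, z2⟩ := half_cycle hM H (by rw [e]; omega) h3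
    have z3 := Z_mono (subset_univ _) le_rfl z1
    have a1 := p1.comp_map (hc.comp H.cont).continuousOn (mapsTo_univ _ univ)
    have b1 := p1.comp_map (hc.comp H'.cont).continuousOn (mapsTo_univ _ univ)
    have c1 := p1.comp_map hc.continuousOn (mapsTo_univ _ univ)
    have d1 := hτ.dual_coc rfl z3
    refine ⟨_, d1, ?_, ?_⟩
    · have := c1.apply_B z2
      rw [map_sub, LinearMap.comp_apply, p2, LinearMap.comp_apply, map_map' H.cont,
        ← LinearMap.comp_apply, hτ.pd hX rfl a1 z3] at this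
      rw [LinearMap.comp_apply]
      linear_combination -this
    obtain ⟨L, l1, l2, l3⟩ := exists_compact z1.1
    have l4 : f₁ ⁻¹' {e₁ 0}ᶜ ∪ Lᶜ = univ := by
      rwa [← compl_subset_iff_union, compl_subset_compl]
    obtain ⟨y, y1, y2⟩ := cap_shrink' (isOpen_compl_singleton.preimage H.cont)
      l1.isClosed.isOpen_compl (l4 ▸ b1) (fun w hw => by
        rw [LinearMap.comp_apply, ← map_map' H'.cont]
        exact c1.apply_B (half_null H' H hw)) (l4 ▸ hτ.cyc)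
    rw [l4] at y2
    have := d1.apply_B y2
    rwa [map_sub, hτ.dual_zero rfl disjoint_compl_right l3 y y1.1, sub_zero] at this
  obtain ⟨a', a1, a2, a3⟩ := key H H'
  obtain ⟨b', b1, b2, -⟩ := key H' H
  let W : ℕ → Set (X × X) := fun i => if h : i < k then U ⟨i, h⟩ else ∅
  have w1 : ∀ i, IsOpen (W i) := fun i => by
    by_cases h : i < k <;> simp [W, h, hU]
  have w2 : ∀ i, ∃ s : C(W i, C(I, X)), ∀ x, s x 0 = x.1.1 ∧ s x 1 = x.1.2 := fun i => by
    by_cases h : i < k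
    · rw [show W i = U ⟨i, h⟩ from dif_pos h]
      exact hσ _
    · rw [show W i = ∅ from dif_neg h]
      exact ⟨⟨fun x => x.2.elim, continuous_of_discreteTopology⟩, fun x => x.2.elim⟩
  refine no_six hτ.cyc (p1.comp_map (hc.comp H.cont).continuousOn (mapsTo_univ _ univ))
    (p1.comp_map (hc.comp H'.cont).continuousOn (mapsTo_univ _ univ)) a1 b1 a2 b2 a3
    (isOpen_iUnion fun i : Fin 4 => w1 i) (w1 4) (w1 5) (eq_univ_of_forall fun q => ?_)
    (fun w hw => ?_) (w2 4) (w2 5)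
  · obtain ⟨i, hi⟩ := mem_iUnion.1 (hc'.ge (mem_univ q))
    have h5 : q ∈ W i := by simpa [W] using hi
    by_cases h : (i : ℕ) < 4
    · exact Or.inl (mem_iUnion.2 ⟨⟨i, h⟩, h5⟩)
    · rcases (by omega : (i : ℕ) = 4 ∨ (i : ℕ) = 5) with h | h <;> rw [h] at h5
      exacts [Or.inr (Or.inl h5), Or.inr (Or.inr h5)]
  · rw [show (φ ∘ₗ map (c ∘ f₁)) ∘ₗ map Prod.fst = φ ∘ₗ map fun q : X × X => c (f₁ q.1) from
        LinearMap.ext fun y => congrArg φ (map_map' continuous_fst _ y),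
      show (φ ∘ₗ map (c ∘ f₂)) ∘ₗ map Prod.snd = φ ∘ₗ map fun q : X × X => c (f₂ q.2) from
        LinearMap.ext fun y => congrArg φ (map_map' continuous_snd _ y)]
    exact weight_four hp hs hc H H' p1 (fun i => w1 i) (fun i => w2 i) hw

end Pool.Agent.Lib.MP_99fcc5_gt
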